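import Pool.Agent.H488.M.Ins

/-!
# One real number against a family and its complex conjugate
-/

set_option autoImplicit false
set_option linter.unusedSectionVars false

namespace Pool.Agent.H488.E

open Pool.Agent.H488.M (vl Bd Meas pt vl_mul elimM)
open Pool.Agent.H596.Q (ev univ meas_nat factor_height ren_coeff ren_degree ren_degree_zero
  ren_degree_le dvd_degree)
open Pool.Agent.TH456.TM (MeasT)

variable {σ τ : Type} [Fintype σ] [Fintype τ]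

/-- two polynomials whose common divisors depend on the first variable only -/
theorem partF' (t : ℂ) (ht : MeasT t) (θ : σ → ℂ) (hθ : Meas θ) (d : ℕ) :
    ∃ κ : ℕ, ∃ c : ℝ, 0 < c ∧ ∀ P Q : MvPolynomial (Option σ) ℤ, P ≠ 0 → Q ≠ 0 →
      (∀ D, D ∣ P → D ∣ Q → ∀ i, D.degreeOf (some i) = 0) → ∀ H : ℝ, 1 ≤ H → Bd d H P → Bd d H Q →
      c ≤ H ^ κ * max ‖vl (pt t θ) P‖ ‖vl (pt t θ) Q‖ := by
  classical
  obtain ⟨κ₁, c₁, hc₁, h₁⟩ := meas_nat t ht d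
  obtain ⟨κ₂, h₂⟩ := elimM θ hθ d
  obtain ⟨c₂, hc₂, h₂⟩ := h₂ ‖t‖
  obtain ⟨B, hB, hfac⟩ := factor_height (τ := Option σ) d
  refine ⟨κ₁ + κ₂, c₁ * c₂ / B ^ (κ₁ + κ₂), by positivity, fun P Q hP hQ hPQ H hH hPH hQH => ?_⟩
  have hH0 : 0 ≤ H := by linarith
  let inst : GCDMonoid (MvPolynomial (Option σ) ℤ) := UniqueFactorizationMonoid.toGCDMonoid _
  obtain ⟨D, hD⟩ : ∃ D, D = gcd P Q := ⟨_, rfl⟩
  have hDP : D ∣ P := by rw [hD]; exact gcd_dvd_left _ _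
  have hDQ : D ∣ Q := by rw [hD]; exact gcd_dvd_right _ _
  obtain ⟨P', hP'⟩ := hDP
  obtain ⟨Q', hQ'⟩ := hDQ
  have hD0 : D ≠ 0 := fun h0 => hP (by rw [hP', h0, zero_mul])
  have hrel : ∀ F, F ∣ P' → F ∣ Q' → F.degreeOf none = 0 := by
    intro F h3 h4
    have h5 : D * F ∣ D := by
      have h6 : D * F ∣ gcd P Q := dvd_gcd (by rw [hP']; exact mul_dvd_mul_left _ h3)
        (by rw [hQ']; exact mul_dvd_mul_left _ h4)
      rwa [← hD] at h6
    obtain ⟨G, hG⟩ := h5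
    have h7 : F * G = 1 := by
      have h8 : D * (F * G) = D * 1 := by rw [mul_one, ← mul_assoc]; exact hG.symm
      exact mul_left_cancel₀ hD0 h8
    have hF0 : F ≠ 0 := left_ne_zero_of_mul (by rw [h7]; exact one_ne_zero)
    have hG0 : G ≠ 0 := right_ne_zero_of_mul (by rw [h7]; exact one_ne_zero)
    have h9 := MvPolynomial.degreeOf_mul_eq (n := none) hF0 hG0
    rw [h7, MvPolynomial.degreeOf_one] at h9
    omega
  obtain ⟨A, hA0, hAd, hAc, hAv⟩ := univ D (hPQ D ⟨P', hP'⟩ ⟨Q', hQ'⟩)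
  obtain ⟨hDd, hDH⟩ := hfac P D hP ⟨P', hP'⟩ hPH.1 H hH0 hPH.2
  obtain ⟨hP'd, hP'H⟩ := hfac P P' hP ⟨D, by rw [hP']; ring⟩ hPH.1 H hH0 hPH.2
  obtain ⟨hQ'd, hQ'H⟩ := hfac Q Q' hQ ⟨D, by rw [hQ']; ring⟩ hQH.1 H hH0 hQH.2
  have hBH : 1 ≤ B * H := one_le_mul_of_one_le_of_one_le hB hH
  have e1 := h₁ A (hA0 hD0) (hAd.trans (hDd none)) (B * H) hBH (fun j => by
    obtain ⟨m, hm⟩ := hAc j
    rw [hm]
    exact hDH m)
  have e2 := h₂ t le_rfl P' Q' hrel (B * H) hBH ⟨hP'd, hP'H⟩ ⟨hQ'd, hQ'H⟩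
  have hev : vl (pt t θ) D = ev t (fun i => Complex.log (θ i)) D := by
    rw [vl, ev]
    congr 2
    funext o
    rcases o with _ | i
    · rfl
    · show θ i = Complex.exp (Complex.log (θ i))
      rw [Complex.exp_log (M.meas_ne hθ i)]
  rw [← hAv t (fun i => Complex.log (θ i)), ← hev] at e1
  have e3 : max ‖vl (pt t θ) P‖ ‖vl (pt t θ) Q‖ = ‖vl (pt t θ) D‖ *
      max ‖vl (pt t θ) P'‖ ‖vl (pt t θ) Q'‖ := by
    rw [hP', hQ', vl_mul, vl_mul, norm_mul, norm_mul, mul_max_of_nonneg _ _ (norm_nonneg _)]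
  rw [e3, div_le_iff₀ (by positivity)]
  calc c₁ * c₂ ≤ ((B * H) ^ κ₁ * ‖vl (pt t θ) D‖) * ((B * H) ^ κ₂ *
        max ‖vl (pt t θ) P'‖ ‖vl (pt t θ) Q'‖) :=
        mul_le_mul e1 e2 hc₂.le (hc₁.le.trans e1)
    _ = _ := by rw [mul_pow, mul_pow, pow_add, pow_add]; ring

/-- two families -/
theorem partG' (t : ℂ) (ht : MeasT t) (θ : σ → ℂ) (θ' : τ → ℂ) (h : Meas (Sum.elim θ θ')) (d : ℕ) :
    ∃ κ : ℕ, ∃ c : ℝ, 0 < c ∧ ∀ (P : MvPolynomial (Option σ) ℤ) (Q : MvPolynomial (Option τ) ℤ),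
      P ≠ 0 → Q ≠ 0 → ∀ H : ℝ, 1 ≤ H → Bd d H P → Bd d H Q →
      c ≤ H ^ κ * max ‖vl (pt t θ) P‖ ‖vl (pt t θ') Q‖ := by
  classical
  obtain ⟨κ, c, hc, h⟩ := partF' t ht (Sum.elim θ θ') h d
  refine ⟨κ, c, hc, fun P Q hP hQ H hH hPH hQH => ?_⟩
  have hH0 : 0 ≤ H := by linarith
  have hl : Function.Injective (Option.map (Sum.inl : σ → σ ⊕ τ)) :=
    Option.map_injective Sum.inl_injective
  have hr : Function.Injective (Option.map (Sum.inr : τ → σ ⊕ τ)) :=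
    Option.map_injective Sum.inr_injective
  have hP0 : MvPolynomial.rename (Option.map (Sum.inl : σ → σ ⊕ τ)) P ≠ 0 := by
    rw [Ne, map_eq_zero_iff _ (MvPolynomial.rename_injective _ hl)]; exact hP
  have hQ0 : MvPolynomial.rename (Option.map (Sum.inr : τ → σ ⊕ τ)) Q ≠ 0 := by
    rw [Ne, map_eq_zero_iff _ (MvPolynomial.rename_injective _ hr)]; exact hQ
  have h1 := h (MvPolynomial.rename (Option.map Sum.inl) P)
    (MvPolynomial.rename (Option.map Sum.inr) Q) hP0 hQ0 (fun D hD1 hD2 i => by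
      rcases i with i | i
      · refine dvd_degree D _ hQ0 hD2 _ (ren_degree_zero _ _ _ ?_)
        rintro ⟨o, ho⟩
        rcases o with _ | o <;> simp at ho
      · refine dvd_degree D _ hP0 hD1 _ (ren_degree_zero _ _ _ ?_)
        rintro ⟨o, ho⟩
        rcases o with _ | o <;> simp at ho) H hH
    ⟨ren_degree_le _ hl P d hPH.1, ren_coeff _ hl P H hH0 hPH.2⟩
    ⟨ren_degree_le _ hr Q d hQH.1, ren_coeff _ hr Q H hH0 hQH.2⟩
  have e1 : vl (pt t (Sum.elim θ θ')) (MvPolynomial.rename (Option.map Sum.inl) P) =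
      vl (pt t θ) P := by
    rw [vl, vl, MvPolynomial.aeval_rename]
    congr 2
    funext o
    rcases o with _ | i <;> rfl
  have e2 : vl (pt t (Sum.elim θ θ')) (MvPolynomial.rename (Option.map Sum.inr) Q) =
      vl (pt t θ') Q := by
    rw [vl, vl, MvPolynomial.aeval_rename]
    congr 2
    funext o
    rcases o with _ | i <;> rfl
  rwa [e1, e2] at h1

/-- complex conjugation -/
lemma vl_conj {ρ : Type} (x : ρ → ℂ) (P : MvPolynomial ρ ℤ) :
    vl (fun i => (starRingEnd ℂ) (x i)) P = (starRingEnd ℂ) (vl x P) := by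
  have h : ((starRingEnd ℂ).comp ((MvPolynomial.aeval x : MvPolynomial ρ ℤ →ₐ[ℤ] ℂ) :
      MvPolynomial ρ ℤ →+* ℂ)) =
      ((MvPolynomial.aeval (fun i => (starRingEnd ℂ) (x i)) : MvPolynomial ρ ℤ →ₐ[ℤ] ℂ) :
        MvPolynomial ρ ℤ →+* ℂ) := by
    refine MvPolynomial.ringHom_ext (fun r => ?_) fun o => ?_
    · simp
    · simp
  exact (congrArg (fun f : MvPolynomial ρ ℤ →+* ℂ => f P) h).symm

/-- **One real number and a family.** -/
theorem meas_real (t : ℝ) (ht : MeasT (t : ℂ)) (θ : σ → ℂ)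
    (h : Meas (Sum.elim θ fun i => (starRingEnd ℂ) (θ i))) :
    Meas (fun o : Option σ => o.elim (t : ℂ) θ) := by
  intro d
  obtain ⟨κ, c, hc, h⟩ := partG' (t : ℂ) ht θ (fun i => (starRingEnd ℂ) (θ i)) h d
  refine ⟨κ, c, hc, fun P hP H hH hB => ?_⟩
  have h1 := h P P hP hP H hH hB hB
  have e1 : vl (pt (t : ℂ) fun i => (starRingEnd ℂ) (θ i)) P = (starRingEnd ℂ) (vl (pt (t : ℂ) θ) P) := by
    rw [← vl_conj]
    congr 1
    funext o
    rcases o with _ | i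
    · show (t : ℂ) = (starRingEnd ℂ) (t : ℂ)
      rw [Complex.conj_ofReal]
    · rfl
  rw [e1, Complex.norm_conj, max_self] at h1
  exact h1

end Pool.Agent.H488.E
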