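import Pool.Agent.H488.E.Fam

/-!
# Families of numbers `e^α (A(y, η) + c x_i) / D` and `y_j`
-/

set_option autoImplicit false
set_option linter.unusedSectionVars false

namespace Pool.Agent.H488.E

open Pool.Agent.H488.M (vl Bd)
open Pool.Agent.H488.S (gr fr pu em Gp)

variable {τ σ ε : Type} [Fintype τ] [Fintype σ] [Fintype ε]

/-- the variables `T_j` and `Y_l` -/
def ry : τ ⊕ ε → τ ⊕ (σ ⊕ ε) := Sum.elim Sum.inl fun l => Sum.inr (Sum.inr l)

/-- the numerators -/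
noncomputable def Fa2 (A : σ → MvPolynomial (τ ⊕ ε) ℤ) (c : σ → ℤ) (p : σ → ε → ℕ) :
    τ ⊕ σ → MvPolynomial (τ ⊕ (σ ⊕ ε)) ℤ :=
  Sum.elim (fun j => MvPolynomial.X (Sum.inl j)) fun i =>
    yM (p i) * (MvPolynomial.rename ry (A i) + MvPolynomial.C (c i) * MvPolynomial.X (Sum.inr (Sum.inl i)))

/-- the denominators -/
noncomputable def Fb2 (D : σ → ℤ) (q : σ → ε → ℕ) : τ ⊕ σ → MvPolynomial (τ ⊕ (σ ⊕ ε)) ℤ :=
  Sum.elim (fun _ => 1) fun i => MvPolynomial.C (D i) * yM (q i)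

omit [Fintype τ] [Fintype σ] [Fintype ε] in
lemma pd_ren2 (A : MvPolynomial (τ ⊕ ε) ℤ) (i : σ) : MvPolynomial.pderiv (Sum.inr (Sum.inl i) : τ ⊕ (σ ⊕ ε))
    (MvPolynomial.rename ry A) = 0 := by
  classical
  apply MvPolynomial.pderiv_eq_zero_of_notMem_vars
  intro hmem
  have h := MvPolynomial.vars_rename _ _ hmem
  rw [Finset.mem_image] at h
  obtain ⟨j, -, hj⟩ := h
  rcases j with j | j
  · exact Sum.inl_ne_inr hj
  · exact Sum.inr_ne_inl (Sum.inr_injective hj)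

omit [Fintype τ] [Fintype σ] in
/-- the values -/
lemma fr_F2 (z : τ ⊕ (σ ⊕ ε) → ℂ) (hz : ∀ l, z (Sum.inr (Sum.inr l)) ≠ 0)
    (A : σ → MvPolynomial (τ ⊕ ε) ℤ) (c D : σ → ℤ) (p q : σ → ε → ℕ) (i : σ) :
    fr z (Fa2 A c p (Sum.inr i)) (Fb2 D q (Sum.inr i)) =
      (∏ l, z (Sum.inr (Sum.inr l)) ^ ((p i l : ℤ) - q i l)) *
        (MvPolynomial.aeval (fun j => z (ry j)) (A i) + c i * z (Sum.inr (Sum.inl i))) / D i := by
  have h1 : ∏ l, z (Sum.inr (Sum.inr l)) ^ ((p i l : ℤ) - q i l) =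
      (∏ l, z (Sum.inr (Sum.inr l)) ^ p i l) / ∏ l, z (Sum.inr (Sum.inr l)) ^ q i l := by
    rw [← Finset.prod_div_distrib]
    refine Finset.prod_congr rfl fun l _ => ?_
    rw [zpow_sub₀ (hz l), zpow_natCast, zpow_natCast]
  have h2 : vl z (Fa2 A c p (Sum.inr i)) = (∏ l, z (Sum.inr (Sum.inr l)) ^ p i l) *
      (MvPolynomial.aeval (fun j => z (ry j)) (A i) + c i * z (Sum.inr (Sum.inl i))) := by
    rw [Fa2, Sum.elim_inr, M.vl_mul, vl_yM]
    congr 1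
    rw [vl, map_add, map_mul, MvPolynomial.aeval_X, MvPolynomial.aeval_rename, MvPolynomial.aeval_C]
    simp [Function.comp_def]
  have h3 : vl z (Fb2 D q (Sum.inr i)) = D i * ∏ l, z (Sum.inr (Sum.inr l)) ^ q i l := by
    rw [Fb2, Sum.elim_inr, M.vl_mul, vl_yM]
    congr 1
    rw [vl, MvPolynomial.aeval_C]
    simp
  rw [fr, h1, h2, h3]
  rw [div_mul_eq_mul_div, div_div, mul_comm (D i : ℂ)]

omit [Fintype τ] [Fintype σ] in
lemma fr_T2 (z : τ ⊕ (σ ⊕ ε) → ℂ) (A : σ → MvPolynomial (τ ⊕ ε) ℤ) (c D : σ → ℤ) (p q : σ → ε → ℕ) (j : τ) :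
    fr z (Fa2 A c p (Sum.inl j)) (Fb2 D q (Sum.inl j)) = z (Sum.inl j) := by
  rw [fr, Fa2, Fb2, Sum.elim_inl, Sum.elim_inl, M.vl_one, div_one, vl, MvPolynomial.aeval_X]

/-- **the family is in general position** -/
theorem gp_F2 (z : τ ⊕ (σ ⊕ ε) → ℂ) (hz : ∀ l, z (Sum.inr (Sum.inr l)) ≠ 0)
    (A : σ → MvPolynomial (τ ⊕ ε) ℤ) (c D : σ → ℤ) (hc : ∀ i, c i ≠ 0) (hD : ∀ i, D i ≠ 0)
    (p q : σ → ε → ℕ) : Gp z (Fa2 A c p) (Fb2 D q) := by
  classical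
  have hy : ∀ r : ε → ℕ, vl z (yM r) ≠ 0 := fun r => by
    rw [vl_yM]; exact Finset.prod_ne_zero_iff.2 fun l _ => pow_ne_zero _ (hz l)
  have hDv : ∀ i, vl z (MvPolynomial.C (D i)) ≠ 0 := fun i => by
    rw [vl, MvPolynomial.aeval_C]
    simpa using hD i
  have hcv : ∀ i, vl z (MvPolynomial.C (c i)) ≠ 0 := fun i => by
    rw [vl, MvPolynomial.aeval_C]
    simpa using hc i
  refine gp_of_li z _ _ ?_ (li_piv z _ _ ?_ ?_ ?_ ?_)
  · rintro (j | i)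
    · rw [Fb2, Sum.elim_inl, M.vl_one]; exact one_ne_zero
    · rw [Fb2, Sum.elim_inr, M.vl_mul]
      exact mul_ne_zero (hDv i) (hy _)
  · intro j j'
    rw [gr, Fa2, Fb2, Sum.elim_inl, Sum.elim_inl]
    have h1 : MvPolynomial.pderiv (em (Sum.inl j')) (1 : MvPolynomial (τ ⊕ (σ ⊕ ε)) ℤ) = 0 :=
      MvPolynomial.pderiv_one
    rw [h1, mul_zero, sub_zero, one_mul]
    by_cases h : j = j'
    · rw [if_pos h, h]
      have h2 : (em (Sum.inl j' : τ ⊕ σ) : τ ⊕ (σ ⊕ ε)) = Sum.inl j' := rfl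
      rw [h2, MvPolynomial.pderiv_X_self, map_one]
    · rw [if_neg h]
      have h2 : (em (Sum.inl j' : τ ⊕ σ) : τ ⊕ (σ ⊕ ε)) = Sum.inl j' := rfl
      rw [h2, MvPolynomial.pderiv_X_of_ne (fun h3 => h (Sum.inl_injective h3)), map_zero]
  · intro j i
    rw [gr, Fa2, Fb2, Sum.elim_inl, Sum.elim_inl]
    have h1 : MvPolynomial.pderiv (em (Sum.inr i)) (1 : MvPolynomial (τ ⊕ (σ ⊕ ε)) ℤ) = 0 :=
      MvPolynomial.pderiv_one
    rw [h1, mul_zero, sub_zero, one_mul]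
    have h2 : (em (Sum.inr i : τ ⊕ σ) : τ ⊕ (σ ⊕ ε)) = Sum.inr (Sum.inl i) := rfl
    rw [h2, MvPolynomial.pderiv_X_of_ne (fun h3 => Sum.inl_ne_inr h3), map_zero]
  · intro i
    have h2 : (em (Sum.inr i : τ ⊕ σ) : τ ⊕ (σ ⊕ ε)) = Sum.inr (Sum.inl i) := rfl
    rw [gr, Fa2, Fb2, Sum.elim_inr, Sum.elim_inr, h2]
    have h3 : MvPolynomial.pderiv (Sum.inr (Sum.inl i) : τ ⊕ (σ ⊕ ε))
        (MvPolynomial.C (D i) * yM (q i)) = 0 := by
      rw [Derivation.leibniz, MvPolynomial.pderiv_C, pd_yM _ _ (fun l h => by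
        exact Sum.inl_ne_inr (Sum.inr_injective h))]
      simp
    have h4 : MvPolynomial.pderiv (Sum.inr (Sum.inl i) : τ ⊕ (σ ⊕ ε))
        (yM (p i) * (MvPolynomial.rename ry (A i) + MvPolynomial.C (c i) *
          MvPolynomial.X (Sum.inr (Sum.inl i)))) = yM (p i) * MvPolynomial.C (c i) := by
      rw [Derivation.leibniz, pd_yM _ _ (fun l h => by
        exact Sum.inl_ne_inr (Sum.inr_injective h)), map_add, pd_ren2, Derivation.leibniz,
        MvPolynomial.pderiv_C, MvPolynomial.pderiv_X_self]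
      simp
    rw [h3, h4, mul_zero, sub_zero]
    change vl z _ ≠ 0
    rw [M.vl_mul, M.vl_mul, M.vl_mul]
    exact mul_ne_zero (mul_ne_zero (hDv i) (hy _)) (mul_ne_zero (hy _) (hcv i))
  · intro i i' hii
    have h2 : (em (Sum.inr i' : τ ⊕ σ) : τ ⊕ (σ ⊕ ε)) = Sum.inr (Sum.inl i') := rfl
    rw [gr, Fa2, Fb2, Sum.elim_inr, Sum.elim_inr, h2]
    have h3 : MvPolynomial.pderiv (Sum.inr (Sum.inl i') : τ ⊕ (σ ⊕ ε))
        (MvPolynomial.C (D i) * yM (q i)) = 0 := by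
      rw [Derivation.leibniz, MvPolynomial.pderiv_C, pd_yM _ _ (fun l h => by
        exact Sum.inl_ne_inr (Sum.inr_injective h))]
      simp
    have h4 : MvPolynomial.pderiv (Sum.inr (Sum.inl i') : τ ⊕ (σ ⊕ ε))
        (yM (p i) * (MvPolynomial.rename ry (A i) + MvPolynomial.C (c i) *
          MvPolynomial.X (Sum.inr (Sum.inl i)))) = 0 := by
      rw [Derivation.leibniz, pd_yM _ _ (fun l h => by
        exact Sum.inl_ne_inr (Sum.inr_injective h)), map_add, pd_ren2, Derivation.leibniz,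
        MvPolynomial.pderiv_C, MvPolynomial.pderiv_X_of_ne (fun h5 => hii
          (Sum.inl_injective (Sum.inr_injective h5)))]
      simp
    rw [h3, h4, mul_zero, mul_zero, sub_zero, map_zero]

/-- **the joint measure for the numbers `y_j` and `e^α (A(y, η) + c x_i) / D`** -/
theorem jm_F2 (θ : σ → ℂ) (η : ε → ℂ) (hη0 : ∀ l, η l ≠ 0) (hθ : M.Meas (Sum.elim θ η))
    (A : σ → MvPolynomial (τ ⊕ ε) ℤ) (c D : σ → ℤ) (hc : ∀ i, c i ≠ 0) (hD : ∀ i, D i ≠ 0)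
    (e : σ → ε → ℤ) (d : ℕ) : ∃ k₁ : ℕ, ∀ y : τ → ℂ, ∃ h₁ : ℝ, 1 ≤ h₁ ∧
      Jm (Fintype.card τ) η (Sum.elim y fun i => (∏ l, η l ^ e i l) *
        (MvPolynomial.aeval (Sum.elim y η) (A i) + c i * θ i) / D i) d k₁ h₁ := by
  classical
  obtain ⟨k₁, h⟩ := S.joint (τ := τ) (Sum.elim θ η) hθ (Fa2 A c fun i l => (e i l).toNat)
    (Fb2 D fun i l => (-e i l).toNat) d
  refine ⟨k₁, fun y => ?_⟩
  obtain ⟨z, hz⟩ : ∃ z : τ ⊕ (σ ⊕ ε) → ℂ, z = Sum.elim y (Sum.elim θ η) := ⟨_, rfl⟩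
  have hzη : ∀ l, z (Sum.inr (Sum.inr l)) = η l := fun l => by rw [hz]; rfl
  obtain ⟨h₁, hh₁, h⟩ := h y (by
    rw [← hz]
    exact gp_F2 z (fun l => by rw [hzη]; exact hη0 l) A c D hc hD _ _)
  refine ⟨h₁, hh₁, fun H hH S hS P hP => ?_⟩
  obtain ⟨i, hi, hlt⟩ := h H hH S hS P hP
  refine ⟨i, hi, ?_⟩
  rw [← hz] at hlt
  have hpu : pu z (fr z (Fa2 A c (fun i l => (e i l).toNat) i) (Fb2 D (fun i l => (-e i l).toNat) i)) =
      M.pt ((Sum.elim y fun i => (∏ l, η l ^ e i l) *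
        (MvPolynomial.aeval (Sum.elim y η) (A i) + c i * θ i) / D i) i) η := by
    have h3 : fr z (Fa2 A c (fun i l => (e i l).toNat) i) (Fb2 D (fun i l => (-e i l).toNat) i) =
        (Sum.elim y fun i => (∏ l, η l ^ e i l) *
        (MvPolynomial.aeval (Sum.elim y η) (A i) + c i * θ i) / D i) i := by
      rcases i with j | i
      · rw [fr_T2, hz]; rfl
      · rw [fr_F2 _ (fun l => by rw [hzη]; exact hη0 l), Sum.elim_inr]
        congr 2
        · refine Finset.prod_congr rfl fun l _ => ?_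
          rw [hzη]
          congr 1
          omega
        · have h5 : (fun j => z (ry j)) = Sum.elim y η := by
            funext j
            rw [hz]
            rcases j with j | j <;> rfl
          rw [h5, hz]; rfl
    rw [h3, hz]
    rfl
  rw [hpu] at hlt
  exact hlt

end Pool.Agent.H488.E
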