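import Pool.Agent.H488.E.Val

/-!
# The joint measure for constants, Gompertz numbers and Poisson means of tails
-/

set_option autoImplicit false
set_option linter.unusedSectionVars false

namespace Pool.Agent.H488.E

open Pool.Agent.H488.M (vl Bd Meas)
open Pool.Agent.N902.EW (PS PT)
open Pool.Agent.W5h35.GA (Ec Nc dC)

variable {κ₁ κ₂ ε τ : Type} [Fintype κ₁] [Fintype κ₂] [Fintype ε] [Fintype τ]

/-- the numbers -/
noncomputable def nm (l : κ₁ → ℕ) (α : κ₁ → ℂ) (k : κ₂ → ℕ) (x : κ₂ → ℂ) : κ₁ ⊕ κ₂ → ℂ :=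
  Sum.elim (fun i => dC (l i) (α i)) fun i => PT (k i) (x i)

theorem jm_names (y : τ → ℂ) (l : κ₁ → ℕ) (α : κ₁ → ℂ) (k : κ₂ → ℕ) (x : κ₂ → ℂ) (β : ε → ℂ)
    (hl : ∀ i, 1 ≤ l i) (hα : ∀ i, IsAlgebraic ℚ (α i) ∧ α i ∈ Complex.slitPlane)
    (hlα : Function.Injective fun i => (l i, α i)) (hk : ∀ i, 2 ≤ k i)
    (hx : ∀ i, IsAlgebraic ℚ (x i)) (hx2 : ∀ i j, x i + x j ≠ 0)
    (hkx : Function.Injective fun i => (k i, x i))
    (hβ : ∀ i, IsAlgebraic ℚ (β i)) (hβl : LinearIndependent ℚ β)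
    (hG : ∀ i, (Real.eulerMascheroniConstant : ℂ) + Complex.log (α i) ∈
      Algebra.adjoin ℚ (Set.range y))
    (hZ : ∀ i, ∀ m, 2 ≤ m → m ≤ l i → riemannZeta m ∈ Algebra.adjoin ℚ (Set.range y))
    (hZ2 : ∀ i, riemannZeta (k i) ∈ Algebra.adjoin ℚ (Set.range y))
    (n : κ₁ → ε → ℤ) (hn : ∀ i, α i = ∑ j, (n i j : ℂ) * β j) (d : ℕ) :
    ∃ (k₁ : ℕ) (h₁ : ℝ), 1 ≤ h₁ ∧ Jm (Fintype.card τ) (fun j => Complex.exp (β j))
      (Sum.elim y (nm l α k x)) d k₁ h₁ := by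
  classical
  have hth := meas_th l α k x β hl (fun i => ⟨(hα i).1, Complex.slitPlane_ne_zero (hα i).2⟩) hlα hk
    hx hx2 hkx hβ hβl
  choose D₁ A₁ hD₁ hA₁ using fun i => exists_int y (Nc_adj (hG i) (l i) (hZ i))
  choose D₂ A₂ hD₂ hA₂ using fun i => exists_int y (hZ2 i)
  obtain ⟨k₁, h⟩ := jm_F (τ := τ) (th l α k x) (fun j => Complex.exp (β j))
    (fun j => Complex.exp_ne_zero _) hth (Sum.elim A₁ A₂)
    (Sum.elim (fun i => (-1) ^ l i * (l i).factorial * D₁ i) fun i => -D₂ i) (Sum.elim D₁ D₂)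
    (by
      rintro (i | i)
      · exact mul_ne_zero (mul_ne_zero (pow_ne_zero _ (by norm_num))
          (by exact_mod_cast (l i).factorial_ne_zero)) (hD₁ i)
      · exact neg_ne_zero.2 (hD₂ i))
    (by
      rintro (i | i)
      · exact hD₁ i
      · exact hD₂ i) (Sum.elim n fun _ _ => 0) d
  obtain ⟨h₁, hh₁, h⟩ := h y
  refine ⟨k₁, h₁, hh₁, ?_⟩
  have e : nm l α k x = fun i => (∏ j, (fun j => Complex.exp (β j)) j ^
      (Sum.elim n (fun _ _ => 0) : κ₁ ⊕ κ₂ → ε → ℤ) i j) *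
        (MvPolynomial.aeval y ((Sum.elim A₁ A₂ : κ₁ ⊕ κ₂ → MvPolynomial τ ℤ) i) +
          ((Sum.elim (fun i => (-1) ^ l i * (l i).factorial * D₁ i) (fun i => -D₂ i) :
            κ₁ ⊕ κ₂ → ℤ) i : ℂ) * th l α k x i) / ((Sum.elim D₁ D₂ : κ₁ ⊕ κ₂ → ℤ) i : ℂ) := by
    funext i
    rcases i with i | i
    · have h0 : (D₁ i : ℂ) ≠ 0 := by exact_mod_cast hD₁ i
      have h1 : ∏ j, Complex.exp (β j) ^ n i j = Complex.exp (α i) := by
        rw [hn i, Complex.exp_sum]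
        exact Finset.prod_congr rfl fun j _ => (Complex.exp_int_mul _ _).symm
      simp only [nm, th, Sum.elim_inl]
      rw [h1, hA₁, dC_eq _ (hα i).2]
      push_cast
      field_simp
      ring
    · have h0 : (D₂ i : ℂ) ≠ 0 := by exact_mod_cast hD₂ i
      simp only [nm, th, Sum.elim_inr, zpow_zero, Finset.prod_const_one, one_mul]
      rw [hA₂, N902.EW.zeta_split (hk i) (x i)]
      push_cast
      field_simp
      ring
  rw [e]
  exact h

end Pool.Agent.H488.E
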