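import Pool.Agent.H488.E.DichA

/-!
# Multiplication of some of the numbers by the imaginary unit
-/

set_option autoImplicit false

namespace Pool.Agent.H488.E

open Pool.Agent.H488.M (vl Bd nb pt vl_mul vl_le lenM_le)
open Pool.Agent.N743.SS (lenM isLenM le_lenM)

/-- the real part of `i ^ k` -/
def rI (k : ℕ) : ℤ := if k % 4 = 0 then 1 else if k % 4 = 2 then -1 else 0

/-- the imaginary part of `i ^ k` -/
def iI (k : ℕ) : ℤ := if k % 4 = 1 then 1 else if k % 4 = 3 then -1 else 0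

lemma I_pow (k : ℕ) : Complex.I ^ k = (rI k : ℂ) + Complex.I * (iI k : ℂ) := by
  rw [Complex.I_pow_eq_pow_mod]
  have h : k % 4 < 4 := Nat.mod_lt _ (by norm_num)
  rw [rI, iI]
  have h3 : k % 4 = 0 ∨ k % 4 = 1 ∨ k % 4 = 2 ∨ k % 4 = 3 := by omega
  rcases h3 with h | h | h | h <;> rw [h] <;> simp [pow_succ]

lemma nI_pow (k : ℕ) : (-Complex.I) ^ k = (rI k : ℂ) - Complex.I * (iI k : ℂ) := by
  have h := congrArg (starRingEnd ℂ) (I_pow k)
  simp only [map_pow, Complex.conj_I, map_add, map_mul, map_intCast] at h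
  rw [h]; ring

lemma abs_rI (k : ℕ) : |((rI k : ℤ) : ℝ)| ≤ 1 := by
  rw [rI]; split_ifs <;> simp

lemma abs_iI (k : ℕ) : |((iI k : ℤ) : ℝ)| ≤ 1 := by
  rw [iI]; split_ifs <;> simp

lemma rI_iI (k : ℕ) : rI k ≠ 0 ∨ iI k ≠ 0 := by
  have h3 : k % 4 = 0 ∨ k % 4 = 1 ∨ k % 4 = 2 ∨ k % 4 = 3 := by omega
  rw [rI, iI]
  rcases h3 with h | h | h | h <;> rw [h] <;> simp

variable {ε : Type} [Fintype ε]

/-- multiply the coefficients by a function of the exponent of the first variable -/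
noncomputable def tw (c : ℕ → ℤ) (P : MvPolynomial (Option ε) ℤ) : MvPolynomial (Option ε) ℤ :=
  ∑ m ∈ P.support, MvPolynomial.monomial m (c (m none) * P.coeff m)

omit [Fintype ε] in
lemma coeff_tw (c : ℕ → ℤ) (P : MvPolynomial (Option ε) ℤ) (m : Option ε →₀ ℕ) :
    (tw c P).coeff m = c (m none) * P.coeff m := by
  classical
  rw [tw, MvPolynomial.coeff_sum]
  simp only [MvPolynomial.coeff_monomial]
  rw [Finset.sum_ite_eq']
  split_ifs with h
  · rfl
  · rw [MvPolynomial.notMem_support_iff.1 h, mul_zero]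

omit [Fintype ε] in
lemma bd_tw {c : ℕ → ℤ} (hc : ∀ k, |((c k : ℤ) : ℝ)| ≤ 1) {P : MvPolynomial (Option ε) ℤ} {d : ℕ}
    {H : ℝ} (h : Bd d H P) : Bd d H (tw c P) := by
  refine ⟨fun o => ?_, fun m => ?_⟩
  · rw [MvPolynomial.degreeOf_le_iff]
    intro m hm
    rw [MvPolynomial.mem_support_iff, coeff_tw] at hm
    exact (MvPolynomial.degreeOf_le_iff.1 (h.1 o)) m
      (MvPolynomial.mem_support_iff.2 (right_ne_zero_of_mul hm))
  · rw [coeff_tw]
    push_cast
    rw [abs_mul]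
    calc |((c (m none) : ℤ) : ℝ)| * |((P.coeff m : ℤ) : ℝ)| ≤ 1 * |((P.coeff m : ℤ) : ℝ)| :=
          mul_le_mul_of_nonneg_right (hc _) (abs_nonneg _)
      _ ≤ H := by rw [one_mul]; exact h.2 m

lemma vl_tw (c : ℕ → ℤ) (P : MvPolynomial (Option ε) ℤ) (z : ℂ) (η : ε → ℂ) :
    vl (pt z η) (tw c P) = ∑ m ∈ P.support,
      ((c (m none) : ℤ) : ℂ) * ((P.coeff m : ℤ) : ℂ) * (z ^ m none * ∏ l, η l ^ m (some l)) := by
  classical
  rw [vl, tw, map_sum]
  refine Finset.sum_congr rfl fun m _ => ?_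
  rw [MvPolynomial.aeval_monomial, Finsupp.prod_fintype _ _ fun _ => pow_zero _, Fintype.prod_option]
  simp [pt]

lemma vl_sup (P : MvPolynomial (Option ε) ℤ) (z : ℂ) (η : ε → ℂ) :
    vl (pt z η) P = ∑ m ∈ P.support,
      ((P.coeff m : ℤ) : ℂ) * (z ^ m none * ∏ l, η l ^ m (some l)) := by
  classical
  rw [vl, MvPolynomial.aeval_def, MvPolynomial.eval₂_eq']
  refine Finset.sum_congr rfl fun m _ => ?_
  rw [Fintype.prod_option]
  rfl

/-- the polynomial `P (i U) P (- i U)` -/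
noncomputable def qI (P : MvPolynomial (Option ε) ℤ) : MvPolynomial (Option ε) ℤ :=
  tw rI P ^ 2 + tw iI P ^ 2

lemma vl_pos (P : MvPolynomial (Option ε) ℤ) (z : ℂ) (η : ε → ℂ) :
    vl (pt z η) (tw rI P) + Complex.I * vl (pt z η) (tw iI P) = vl (pt (Complex.I * z) η) P := by
  rw [vl_tw, vl_tw, vl_sup, Finset.mul_sum, ← Finset.sum_add_distrib]
  refine Finset.sum_congr rfl fun m _ => ?_
  rw [mul_pow, I_pow]
  ring

lemma vl_neg (P : MvPolynomial (Option ε) ℤ) (z : ℂ) (η : ε → ℂ) :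
    vl (pt z η) (tw rI P) - Complex.I * vl (pt z η) (tw iI P) = vl (pt (-Complex.I * z) η) P := by
  rw [vl_tw, vl_tw, vl_sup, Finset.mul_sum, ← Finset.sum_sub_distrib]
  refine Finset.sum_congr rfl fun m _ => ?_
  rw [mul_pow, nI_pow]
  ring

lemma vl_qI (P : MvPolynomial (Option ε) ℤ) (u : ℂ) (η : ε → ℂ) :
    vl (pt (Complex.I * u) η) (qI P) = vl (pt u η) P * vl (pt (-u) η) P := by
  have h1 := vl_pos P (Complex.I * u) η
  have h2 := vl_neg P (Complex.I * u) η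
  have e1 : Complex.I * (Complex.I * u) = -u := by
    rw [← mul_assoc, Complex.I_mul_I]; ring
  have e2 : -Complex.I * (Complex.I * u) = u := by
    rw [neg_mul, e1]; ring
  rw [e1] at h1
  rw [e2] at h2
  rw [← h1, ← h2, qI, vl, map_add, map_pow, map_pow]
  change vl _ _ ^ 2 + vl _ _ ^ 2 = _
  linear_combination ((vl (pt (Complex.I * u) η) (tw iI P)) ^ 2) * Complex.I_mul_I

omit [Fintype ε] in
lemma qI_ne {P : MvPolynomial (Option ε) ℤ} (hP : P ≠ 0) : qI P ≠ 0 := by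
  classical
  intro h0
  have hinj : Function.Injective (MvPolynomial.map (σ := Option ε) (Int.castRingHom ℂ)) :=
    MvPolynomial.map_injective _ (RingHom.injective_int _)
  have h1 := congrArg (MvPolynomial.map (Int.castRingHom ℂ)) h0
  rw [qI, map_add, map_pow, map_pow, map_zero] at h1
  obtain ⟨a, ha⟩ : ∃ a, a = MvPolynomial.map (Int.castRingHom ℂ) (tw rI P) := ⟨_, rfl⟩
  obtain ⟨b, hb⟩ : ∃ b, b = MvPolynomial.map (Int.castRingHom ℂ) (tw iI P) := ⟨_, rfl⟩
  rw [← ha, ← hb] at h1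
  have hI : (MvPolynomial.C Complex.I : MvPolynomial (Option ε) ℂ) ^ 2 = -1 := by
    rw [← map_pow, Complex.I_sq, map_neg, map_one]
  have h2 : (a + MvPolynomial.C Complex.I * b) * (a - MvPolynomial.C Complex.I * b) = 0 := by
    linear_combination h1 - b ^ 2 * hI
  have key : ∀ m, a.coeff m = 0 ∧ b.coeff m = 0 := by
    intro m
    have hac : a.coeff m = (((tw rI P).coeff m : ℤ) : ℂ) := by rw [ha, MvPolynomial.coeff_map]; rfl
    have hbc : b.coeff m = (((tw iI P).coeff m : ℤ) : ℂ) := by rw [hb, MvPolynomial.coeff_map]; rfl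
    rcases mul_eq_zero.1 h2 with h3 | h3
    · have h4 := congrArg (MvPolynomial.coeff m) h3
      rw [MvPolynomial.coeff_add, MvPolynomial.coeff_C_mul, MvPolynomial.coeff_zero, hac, hbc] at h4
      have h5 := congrArg Complex.re h4
      have h6 := congrArg Complex.im h4
      simp at h5 h6
      rw [hac, hbc, h5, h6]
      simp
    · have h4 := congrArg (MvPolynomial.coeff m) h3
      rw [MvPolynomial.coeff_sub, MvPolynomial.coeff_C_mul, MvPolynomial.coeff_zero, hac, hbc] at h4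
      have h5 := congrArg Complex.re h4
      have h6 := congrArg Complex.im h4
      simp at h5 h6
      rw [hac, hbc, h5, h6]
      simp
  refine hP (MvPolynomial.ext _ _ fun m => ?_)
  have h3 := key m
  rw [ha, hb, MvPolynomial.coeff_map, MvPolynomial.coeff_map, coeff_tw, coeff_tw] at h3
  have h4 : rI (m none) * P.coeff m = 0 := by
    have := h3.1
    simpa using this
  have h5 : iI (m none) * P.coeff m = 0 := by
    have := h3.2
    simpa using this
  rw [MvPolynomial.coeff_zero]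
  rcases rI_iI (m none) with h | h
  · exact (mul_eq_zero.1 h4).resolve_left h
  · exact (mul_eq_zero.1 h5).resolve_left h

lemma bd_qI {P : MvPolynomial (Option ε) ℤ} {d : ℕ} {H : ℝ} (hH : 0 ≤ H) (h : Bd d H P) :
    Bd (2 * d) (2 * (nb (Option ε) d * H) ^ 2) (qI P) := by
  have hL := isLenM (ι := Option ε)
  have h1 := bd_tw abs_rI h
  have h2 := bd_tw abs_iI h
  refine ⟨fun o => ?_, fun m => ?_⟩
  · rw [qI]
    refine (MvPolynomial.degreeOf_add_le _ _ _).trans (max_le ?_ ?_)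
    · exact (MvPolynomial.degreeOf_pow_le _ _ _).trans (Nat.mul_le_mul_left _ (h1.1 o))
    · exact (MvPolynomial.degreeOf_pow_le _ _ _).trans (Nat.mul_le_mul_left _ (h2.1 o))
  · refine (le_lenM _ m).trans ?_
    rw [qI]
    have h3 := lenM_le d _ H hH h1
    have h4 := lenM_le d _ H hH h2
    calc lenM (tw rI P ^ 2 + tw iI P ^ 2) ≤ lenM (tw rI P ^ 2) + lenM (tw iI P ^ 2) := hL.add _ _
      _ ≤ lenM (tw rI P) ^ 2 + lenM (tw iI P) ^ 2 :=
          add_le_add (Pool.Agent.N743.SS.isLen_pow hL _ 2) (Pool.Agent.N743.SS.isLen_pow hL _ 2)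
      _ ≤ (nb (Option ε) d * H) ^ 2 + (nb (Option ε) d * H) ^ 2 :=
          add_le_add (pow_le_pow_left₀ (hL.nonneg _) h3 2) (pow_le_pow_left₀ (hL.nonneg _) h4 2)
      _ = _ := by ring

variable {ι : Type} [Fintype ι]

/-- a joint measure for the numbers some of which are multiplied by `i` -/
theorem jm_conv {s : ℕ} (η : ε → ℂ) (u u' : ι → ℂ) (hu : ∀ i, u' i = u i ∨ u' i = Complex.I * u i)
    (d k₁ : ℕ) (h₁ : ℝ) (hj : Jm s η u' (2 * d) k₁ h₁) :
    ∃ h₂ : ℝ, 1 ≤ h₂ ∧ Jm s η u d (2 * k₁ + 2) h₂ := by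
  classical
  have hC : ∀ i, ∃ B : ℝ, 1 ≤ B ∧ ∀ (P : MvPolynomial (Option ε) ℤ) (H : ℝ), 0 ≤ H → Bd d H P →
      ‖MvPolynomial.aeval (pt (-u i) η) P‖ ≤ B * H := fun i => vl_le _ d
  choose C hC1 hC using hC
  obtain ⟨C', hC'⟩ : ∃ C' : ℝ, C' = 1 + ∑ i, C i := ⟨_, rfl⟩
  have hCC : ∀ i, C i ≤ C' := fun i => by
    have := Finset.single_le_sum (f := C) (fun i _ => zero_le_one.trans (hC1 i)) (Finset.mem_univ i)
    rw [hC']; linarith
  have hC'1 : 1 ≤ C' := by
    rw [hC']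
    have : 0 ≤ ∑ i, C i := Finset.sum_nonneg fun i _ => zero_le_one.trans (hC1 i)
    linarith
  obtain ⟨q, hq⟩ : ∃ q : ℝ, q = 2 * (nb (Option ε) d : ℝ) ^ 2 := ⟨_, rfl⟩
  have hq1 : 1 ≤ q := by
    have h1 : (1 : ℝ) ≤ nb (Option ε) d := by exact_mod_cast M.one_le_nb d
    rw [hq]; nlinarith [one_le_pow₀ h1 (n := 2)]
  obtain ⟨h₂, hh₂⟩ : ∃ h₂ : ℝ, h₂ = 1 + |h₁| + q ^ k₁ * C' := ⟨_, rfl⟩
  have hqC : 0 < q ^ k₁ * C' := by positivity
  refine ⟨h₂, by rw [hh₂]; have := abs_nonneg h₁; linarith, fun H hH S hS P hP => ?_⟩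
  have habs := abs_nonneg h₁
  have hH1 : 1 ≤ H := by rw [hh₂] at hH; linarith
  have hHh : h₁ ≤ H := by
    have := le_abs_self h₁
    rw [hh₂] at hH; linarith
  have hHq : q ^ k₁ * C' ≤ H := by rw [hh₂] at hH; linarith
  have hH' : 2 * (nb (Option ε) d * H) ^ 2 = q * H ^ 2 := by rw [hq]; ring
  have hHH : H ≤ q * H ^ 2 := by nlinarith [mul_le_mul hq1 (show H ≤ H ^ 2 by nlinarith) (by linarith) (by linarith)]
  obtain ⟨i, hi, hlt⟩ := hj (q * H ^ 2) (hHh.trans hHH) S hS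
    (fun i => if u' i = u i then P i else qI (P i)) (fun i hi => by
      obtain ⟨h3, h4⟩ := hP i hi
      by_cases h5 : u' i = u i
      · rw [if_pos h5]
        exact ⟨h3, fun o => (h4.1 o).trans (by omega), fun m => (h4.2 m).trans hHH⟩
      · rw [if_neg h5]
        refine ⟨qI_ne h3, ?_⟩
        rw [← hH']
        exact bd_qI (by linarith) h4)
  refine ⟨i, hi, ?_⟩
  obtain ⟨y, hy⟩ : ∃ y : ℝ, y = ‖vl (pt (u i) η) (P i)‖ := ⟨_, rfl⟩
  have hy0 : 0 ≤ y := by rw [hy]; exact norm_nonneg _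
  have hmain : 1 < (q * H ^ 2) ^ k₁ * (C' * H * y) := by
    refine hlt.trans_le (mul_le_mul_of_nonneg_left ?_ (by positivity))
    by_cases h5 : u' i = u i
    · simp only [if_pos h5]
      rw [h5, ← hy]
      exact le_mul_of_one_le_left hy0 (one_le_mul_of_one_le_of_one_le hC'1 hH1)
    · simp only [if_neg h5]
      have h6 := (hu i).resolve_left h5
      rw [h6, vl_qI, norm_mul, ← hy, mul_comm]
      refine mul_le_mul_of_nonneg_right ?_ hy0
      refine (hC i (P i) H (by linarith) (hP i hi).2).trans ?_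
      exact mul_le_mul_of_nonneg_right (hCC i) (by linarith)
  rw [← hy]
  refine hmain.trans_le ?_
  calc (q * H ^ 2) ^ k₁ * (C' * H * y) = (q ^ k₁ * C') * (H ^ (2 * k₁) * H) * y := by
        rw [mul_pow, ← pow_mul]; ring
    _ ≤ H * (H ^ (2 * k₁) * H) * y := by
        refine mul_le_mul_of_nonneg_right (mul_le_mul_of_nonneg_right hHq (by positivity)) hy0
    _ = H ^ (2 * k₁ + 2) * y := by ring

end Pool.Agent.H488.E
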