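import Pool.Agent.H488.E.Nam

/-!
# Euler's constant, logarithms, `π` and the zeta values
-/

set_option autoImplicit false
set_option linter.unusedSectionVars false

namespace Pool.Agent.H488.E

open Pool.Agent.H488.M (vl Bd Meas)
open Pool.Agent.N902.EW (PS PT)
open Pool.Agent.W5h35.GA (Ec Nc dC)

/-- the constants -/
noncomputable def cst (c m : ℕ) (e : Fin c → ℕ) (b : Fin m → ℂ) : Fin 2 ⊕ (Fin c ⊕ Fin m) → ℂ :=
  Sum.elim ![(Real.eulerMascheroniConstant : ℂ), (Real.pi : ℂ)]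
    (Sum.elim (fun j => riemannZeta ((2 * (j : ℕ) + 3 : ℕ) : ℂ) / (Real.pi : ℂ) ^ e j) fun j => Complex.log (b j))

/-- the constants, some of them multiplied by the imaginary unit -/
noncomputable def cst' (c m : ℕ) (e : Fin c → ℕ) (b : Fin m → ℂ) : Fin 2 ⊕ (Fin c ⊕ Fin m) → ℂ :=
  Sum.elim ![(Real.eulerMascheroniConstant : ℂ), Complex.I * (Real.pi : ℂ)]
    (Sum.elim (fun j => if Even (e j) then riemannZeta ((2 * (j : ℕ) + 3 : ℕ) : ℂ) / (Real.pi : ℂ) ^ e j else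
      Complex.I * (riemannZeta ((2 * (j : ℕ) + 3 : ℕ) : ℂ) / (Real.pi : ℂ) ^ e j)) fun j => Complex.log (b j))

lemma cst_cst' (c m : ℕ) (e : Fin c → ℕ) (b : Fin m → ℂ) (i : Fin 2 ⊕ (Fin c ⊕ Fin m)) :
    cst' c m e b i = cst c m e b i ∨ cst' c m e b i = Complex.I * cst c m e b i := by
  rcases i with i | i | i
  · fin_cases i
    · left; rfl
    · right; rfl
  · by_cases h : Even (e i)
    · left; simp only [cst, cst', Sum.elim_inr, Sum.elim_inl, if_pos h]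
    · right; simp only [cst, cst', Sum.elim_inr, Sum.elim_inl, if_neg h]
  · left; rfl

variable {c m : ℕ} {e : Fin c → ℕ} {b : Fin m → ℂ}

lemma mem_S (i : Fin 2 ⊕ (Fin c ⊕ Fin m)) : cst' c m e b i ∈ Algebra.adjoin ℚ (Set.range (cst' c m e b)) :=
  Algebra.subset_adjoin ⟨i, rfl⟩

lemma euler_S : (Real.eulerMascheroniConstant : ℂ) ∈ Algebra.adjoin ℚ (Set.range (cst' c m e b)) :=
  mem_S (Sum.inl 0)

lemma ipi_S : Complex.I * (Real.pi : ℂ) ∈ Algebra.adjoin ℚ (Set.range (cst' c m e b)) :=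
  mem_S (Sum.inl 1)

lemma logb_S (j : Fin m) : Complex.log (b j) ∈ Algebra.adjoin ℚ (Set.range (cst' c m e b)) :=
  mem_S (Sum.inr (Sum.inr j))

lemma pi_even_S (k : ℕ) : (Real.pi : ℂ) ^ (2 * k) ∈ Algebra.adjoin ℚ (Set.range (cst' c m e b)) := by
  have h : (Real.pi : ℂ) ^ (2 * k) = (-1) ^ k * (Complex.I * (Real.pi : ℂ)) ^ (2 * k) := by
    rw [mul_pow, pow_mul Complex.I, Complex.I_sq, ← mul_assoc, ← mul_pow]
    norm_num
  rw [h]
  exact Subalgebra.mul_mem _ (Subalgebra.pow_mem _ (Subalgebra.neg_mem _ (Subalgebra.one_mem _)) _)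
    (Subalgebra.pow_mem _ ipi_S _)

lemma zeta_odd_S (j : Fin c) : riemannZeta ((2 * (j : ℕ) + 3 : ℕ) : ℂ) ∈
    Algebra.adjoin ℚ (Set.range (cst' c m e b)) := by
  have hpi : (Real.pi : ℂ) ≠ 0 := by exact_mod_cast Real.pi_ne_zero
  have h0 := mem_S (e := e) (b := b) (Sum.inr (Sum.inl j))
  simp only [cst', Sum.elim_inr, Sum.elim_inl] at h0
  obtain ⟨z, hz⟩ : ∃ z, z = riemannZeta ((2 * (j : ℕ) + 3 : ℕ) : ℂ) := ⟨_, rfl⟩
  rw [← hz] at h0 ⊢
  have hneg : (-1 : ℂ) ∈ Algebra.adjoin ℚ (Set.range (cst' c m e b)) :=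
    Subalgebra.neg_mem _ (Subalgebra.one_mem _)
  by_cases h : Even (e j)
  · rw [if_pos h] at h0
    obtain ⟨k, hk⟩ := h
    have h1 : z = z / (Real.pi : ℂ) ^ e j * (Real.pi : ℂ) ^ (2 * k) := by
      have : e j = 2 * k := by omega
      rw [this, div_mul_cancel₀ _ (pow_ne_zero _ hpi)]
    rw [h1]
    exact Subalgebra.mul_mem _ h0 (pi_even_S k)
  · rw [if_neg h] at h0
    rw [Nat.not_even_iff_odd] at h
    obtain ⟨k, hk⟩ := h
    have h1 : z = (-1) * ((Complex.I * (z / (Real.pi : ℂ) ^ e j)) * (Real.pi : ℂ) ^ (2 * k) *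
        (Complex.I * Real.pi)) := by
      rw [hk]
      have h2 : (Real.pi : ℂ) ^ (2 * k + 1) ≠ 0 := pow_ne_zero _ hpi
      have h3 : (-1 : ℂ) * ((Complex.I * (z / (Real.pi : ℂ) ^ (2 * k + 1))) * (Real.pi : ℂ) ^ (2 * k) *
        (Complex.I * Real.pi)) = (-(Complex.I * Complex.I)) * (z / (Real.pi : ℂ) ^ (2 * k + 1) * (Real.pi : ℂ) ^ (2 * k + 1)) := by
        rw [pow_succ]; ring
      rw [h3, div_mul_cancel₀ _ h2, Complex.I_mul_I]
      ring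
    rw [h1]
    exact Subalgebra.mul_mem _ hneg (Subalgebra.mul_mem _ (Subalgebra.mul_mem _ h0 (pi_even_S k)) ipi_S)

lemma zeta_even_S {k : ℕ} (hk : k ≠ 0) : riemannZeta ((2 * k : ℕ) : ℂ) ∈
    Algebra.adjoin ℚ (Set.range (cst' c m e b)) := by
  have h1 := riemannZeta_two_mul_nat hk
  have h2 : riemannZeta ((2 * k : ℕ) : ℂ) = algebraMap ℚ ℂ ((-1) ^ (k + 1) * 2 ^ (2 * k - 1) *
      bernoulli (2 * k) / (2 * k).factorial) * (Real.pi : ℂ) ^ (2 * k) := by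
    rw [map_div₀, map_mul, map_mul, map_pow, map_pow, map_neg, map_one, map_ofNat, map_natCast,
      eq_ratCast]
    push_cast
    push_cast at h1
    rw [h1]
    ring
  rw [h2]
  exact Subalgebra.mul_mem _ (Subalgebra.algebraMap_mem _ _) (pi_even_S k)

lemma zeta_S {k : ℕ} (hk : 2 ≤ k) (hk2 : k ≤ 2 * c + 2) : riemannZeta (k : ℂ) ∈
    Algebra.adjoin ℚ (Set.range (cst' c m e b)) := by
  rcases Nat.even_or_odd' k with ⟨j, rfl | rfl⟩
  · exact zeta_even_S (by omega)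
  · have h := zeta_odd_S (e := e) (b := b) ⟨j - 1, by omega⟩
    have h2 : 2 * (j - 1) + 3 = 2 * j + 1 := by omega
    simp only [h2] at h
    exact h

lemma log_S {α : ℂ} (hα : α ≠ 0) (hb : ∀ j, b j ≠ 0) {N : ℕ} (hN : N ≠ 0) (r : Fin m → ℤ)
    (h : α ^ N = ∏ j, b j ^ r j) : Complex.log α ∈ Algebra.adjoin ℚ (Set.range (cst' c m e b)) := by
  have h1 : Complex.exp (N * Complex.log α) = Complex.exp (∑ j, (r j : ℂ) * Complex.log (b j)) := by
    rw [Complex.exp_nat_mul, Complex.exp_log hα, h, Complex.exp_sum]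
    refine Finset.prod_congr rfl fun j _ => ?_
    rw [Complex.exp_int_mul, Complex.exp_log (hb j)]
  obtain ⟨n, hn⟩ := Complex.exp_eq_exp_iff_exists_int.1 h1
  have hN0 : (N : ℂ) ≠ 0 := by exact_mod_cast hN
  have h2 : Complex.log α = algebraMap ℚ ℂ (1 / N) * ((∑ j, (r j : ℂ) * Complex.log (b j)) +
      (2 * n) * (Complex.I * Real.pi)) := by
    have h3 : algebraMap ℚ ℂ (1 / N) = 1 / (N : ℂ) := by rw [map_div₀, map_one, map_natCast]
    rw [h3, one_div, eq_inv_mul_iff_mul_eq₀ hN0, hn]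
    ring
  rw [h2]
  refine Subalgebra.mul_mem _ (Subalgebra.algebraMap_mem _ _) (Subalgebra.add_mem _
    (Subalgebra.sum_mem _ fun j _ => ?_) (Subalgebra.mul_mem _ ?_ ipi_S))
  · exact Subalgebra.mul_mem _ (intCast_mem _ _) (logb_S j)
  · have h2 : ((2 : ℕ) : ℂ) ∈ Algebra.adjoin ℚ (Set.range (cst' c m e b)) := natCast_mem _ 2
    rw [Nat.cast_ofNat] at h2
    exact Subalgebra.mul_mem _ h2 (intCast_mem _ _)

variable {κ₁ κ₂ ε : Type} [Fintype κ₁] [Fintype κ₂] [Fintype ε]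

/-- **the joint measure for the constants, the Gompertz numbers and the Poisson means of tails** -/
theorem jm_con (hb : ∀ j, b j ≠ 0) (l : κ₁ → ℕ) (α : κ₁ → ℂ) (k : κ₂ → ℕ) (x : κ₂ → ℂ) (β : ε → ℂ)
    (hl : ∀ i, 1 ≤ l i ∧ l i ≤ 2 * c + 2)
    (hα : ∀ i, IsAlgebraic ℚ (α i) ∧ α i ∈ Complex.slitPlane ∧ ∃ N : ℕ, N ≠ 0 ∧ ∃ r : Fin m → ℤ,
      α i ^ N = ∏ j, b j ^ r j)
    (hlα : Function.Injective fun i => (l i, α i)) (hk : ∀ i, 2 ≤ k i ∧ k i ≤ 2 * c + 2)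
    (hx : ∀ i, IsAlgebraic ℚ (x i)) (hx2 : ∀ i j, x i + x j ≠ 0)
    (hkx : Function.Injective fun i => (k i, x i))
    (hβ : ∀ i, IsAlgebraic ℚ (β i)) (hβl : LinearIndependent ℚ β)
    (n : κ₁ → ε → ℤ) (hn : ∀ i, α i = ∑ j, (n i j : ℂ) * β j) (d : ℕ) :
    ∃ (k₁ : ℕ) (h₁ : ℝ), 1 ≤ h₁ ∧ Jm (c + m + 2) (fun j => Complex.exp (β j))
      (Sum.elim (cst c m e b) (nm l α k x)) d k₁ h₁ := by
  classical
  obtain ⟨k₁, h₁, hh₁, h⟩ := jm_names (cst' c m e b) l α k x β (fun i => (hl i).1)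
    (fun i => ⟨(hα i).1, (hα i).2.1⟩) hlα (fun i => (hk i).1) hx hx2 hkx hβ hβl
    (fun i => by
      obtain ⟨-, h1, N, hN, r, hr⟩ := hα i
      exact Subalgebra.add_mem _ euler_S (log_S (Complex.slitPlane_ne_zero h1) hb hN r hr))
    (fun i j h2 h3 => zeta_S h2 (h3.trans (hl i).2)) (fun i => zeta_S (hk i).1 (hk i).2) n hn (2 * d)
  have hcard : Fintype.card (Fin 2 ⊕ (Fin c ⊕ Fin m)) = c + m + 2 := by
    simp [Fintype.card_sum]; omega
  rw [hcard] at h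
  obtain ⟨h₂, hh₂, h3⟩ := jm_conv (fun j => Complex.exp (β j)) (Sum.elim (cst c m e b) (nm l α k x))
    (Sum.elim (cst' c m e b) (nm l α k x)) (by
      rintro (i | i)
      · exact cst_cst' c m e b i
      · left; rfl) d k₁ h₁ h
  exact ⟨_, h₂, hh₂, h3⟩

end Pool.Agent.H488.E
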