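import Pool.Agent.H488.E.Conv
import Pool.Agent.H488.S.Joint

/-!
# Families of numbers `e^α (A(y) + c x_i) / D` and `y_j`
-/

set_option autoImplicit false
set_option linter.unusedSectionVars false

namespace Pool.Agent.H488.E

open Pool.Agent.H488.M (vl Bd)
open Pool.Agent.H488.S (gr fr pu em Gp)

variable {τ σ ε : Type} [Fintype τ] [Fintype σ] [Fintype ε]

omit [Fintype ε] in
/-- gradients in triangular position are independent -/
lemma li_piv [DecidableEq τ] (z : τ ⊕ (σ ⊕ ε) → ℂ) (a b : τ ⊕ σ → MvPolynomial (τ ⊕ (σ ⊕ ε)) ℤ)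
    (hT : ∀ j j' : τ, gr z (a (Sum.inl j)) (b (Sum.inl j)) (Sum.inl j') = if j = j' then 1 else 0)
    (hT2 : ∀ (j : τ) (i : σ), gr z (a (Sum.inl j)) (b (Sum.inl j)) (Sum.inr i) = 0)
    (h1 : ∀ i : σ, gr z (a (Sum.inr i)) (b (Sum.inr i)) (Sum.inr i) ≠ 0)
    (h2 : ∀ i i' : σ, i ≠ i' → gr z (a (Sum.inr i)) (b (Sum.inr i)) (Sum.inr i') = 0) :
    LinearIndependent ℂ fun i => gr z (a i) (b i) := by
  classical
  rw [Fintype.linearIndependent_iff]
  intro g hg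
  have hr : ∀ i : σ, g (Sum.inr i) = 0 := by
    intro i
    have h := congrFun hg (Sum.inr i)
    simp only [Finset.sum_apply, Pi.smul_apply, smul_eq_mul, Pi.zero_apply, Fintype.sum_sum_type,
      hT2, mul_zero, Finset.sum_const_zero, zero_add] at h
    rw [Finset.sum_eq_single i (fun i' _ hi' => by rw [h2 i' i hi', mul_zero])
      (fun hi => absurd (Finset.mem_univ i) hi)] at h
    exact (mul_eq_zero.1 h).resolve_right (h1 i)
  have hl : ∀ j : τ, g (Sum.inl j) = 0 := by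
    intro j
    have h := congrFun hg (Sum.inl j)
    simp only [Finset.sum_apply, Pi.smul_apply, smul_eq_mul, Pi.zero_apply, Fintype.sum_sum_type,
      hr, zero_mul, Finset.sum_const_zero, add_zero, hT] at h
    simpa using h
  rintro (j | i)
  · exact hl j
  · exact hr i

omit [Fintype ε] in
lemma gp_of_li (z : τ ⊕ (σ ⊕ ε) → ℂ) (a b : τ ⊕ σ → MvPolynomial (τ ⊕ (σ ⊕ ε)) ℤ)
    (hb : ∀ i, vl z (b i) ≠ 0) (h : LinearIndependent ℂ fun i => gr z (a i) (b i)) : Gp z a b :=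
  ⟨hb, fun _ _ => h.comp _ Subtype.val_injective⟩

/-- a monomial in the variables `Y` -/
noncomputable def yM (p : ε → ℕ) : MvPolynomial (τ ⊕ (σ ⊕ ε)) ℤ :=
  ∏ l, MvPolynomial.X (Sum.inr (Sum.inr l)) ^ p l

/-- the numerators -/
noncomputable def Fa (A : σ → MvPolynomial τ ℤ) (c : σ → ℤ) (p : σ → ε → ℕ) :
    τ ⊕ σ → MvPolynomial (τ ⊕ (σ ⊕ ε)) ℤ :=
  Sum.elim (fun j => MvPolynomial.X (Sum.inl j)) fun i =>
    yM (p i) * (MvPolynomial.rename Sum.inl (A i) + MvPolynomial.C (c i) * MvPolynomial.X (Sum.inr (Sum.inl i)))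

/-- the denominators -/
noncomputable def Fb (D : σ → ℤ) (q : σ → ε → ℕ) : τ ⊕ σ → MvPolynomial (τ ⊕ (σ ⊕ ε)) ℤ :=
  Sum.elim (fun _ => 1) fun i => MvPolynomial.C (D i) * yM (q i)

omit [Fintype τ] [Fintype σ] in
lemma vl_yM (z : τ ⊕ (σ ⊕ ε) → ℂ) (p : ε → ℕ) : vl z (yM p) = ∏ l, z (Sum.inr (Sum.inr l)) ^ p l := by
  rw [vl, yM, map_prod]
  refine Finset.prod_congr rfl fun j _ => ?_
  rw [map_pow, MvPolynomial.aeval_X]

omit [Fintype τ] [Fintype σ] in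
lemma pd_yM (p : ε → ℕ) (o : τ ⊕ (σ ⊕ ε)) (ho : ∀ l, o ≠ Sum.inr (Sum.inr l)) :
    MvPolynomial.pderiv o (yM p : MvPolynomial (τ ⊕ (σ ⊕ ε)) ℤ) = 0 := by
  classical
  apply MvPolynomial.pderiv_eq_zero_of_notMem_vars
  intro hmem
  rw [yM] at hmem
  have h2 := MvPolynomial.vars_prod (s := Finset.univ)
    (fun l => (MvPolynomial.X (Sum.inr (Sum.inr l)) ^ p l : MvPolynomial (τ ⊕ (σ ⊕ ε)) ℤ)) hmem
  rw [Finset.mem_biUnion] at h2
  obtain ⟨l, -, h3⟩ := h2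
  have h4 := MvPolynomial.vars_pow _ _ h3
  rw [MvPolynomial.vars_X, Finset.mem_singleton] at h4
  exact ho l h4

omit [Fintype τ] [Fintype σ] [Fintype ε] in
lemma pd_ren (A : MvPolynomial τ ℤ) (i : σ) : MvPolynomial.pderiv (Sum.inr (Sum.inl i) : τ ⊕ (σ ⊕ ε))
    (MvPolynomial.rename Sum.inl A) = 0 := by
  classical
  apply MvPolynomial.pderiv_eq_zero_of_notMem_vars
  intro hmem
  have h := MvPolynomial.vars_rename _ _ hmem
  rw [Finset.mem_image] at h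
  obtain ⟨j, -, hj⟩ := h
  exact Sum.inl_ne_inr hj

omit [Fintype τ] [Fintype σ] in
/-- the values -/
lemma fr_F (z : τ ⊕ (σ ⊕ ε) → ℂ) (hz : ∀ l, z (Sum.inr (Sum.inr l)) ≠ 0)
    (A : σ → MvPolynomial τ ℤ) (c D : σ → ℤ) (p q : σ → ε → ℕ) (i : σ) :
    fr z (Fa A c p (Sum.inr i)) (Fb D q (Sum.inr i)) =
      (∏ l, z (Sum.inr (Sum.inr l)) ^ ((p i l : ℤ) - q i l)) *
        (MvPolynomial.aeval (fun j => z (Sum.inl j)) (A i) + c i * z (Sum.inr (Sum.inl i))) / D i := by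
  have h1 : ∏ l, z (Sum.inr (Sum.inr l)) ^ ((p i l : ℤ) - q i l) =
      (∏ l, z (Sum.inr (Sum.inr l)) ^ p i l) / ∏ l, z (Sum.inr (Sum.inr l)) ^ q i l := by
    rw [← Finset.prod_div_distrib]
    refine Finset.prod_congr rfl fun l _ => ?_
    rw [zpow_sub₀ (hz l), zpow_natCast, zpow_natCast]
  have h2 : vl z (Fa A c p (Sum.inr i)) = (∏ l, z (Sum.inr (Sum.inr l)) ^ p i l) *
      (MvPolynomial.aeval (fun j => z (Sum.inl j)) (A i) + c i * z (Sum.inr (Sum.inl i))) := by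
    rw [Fa, Sum.elim_inr, M.vl_mul, vl_yM]
    congr 1
    rw [vl, map_add, map_mul, MvPolynomial.aeval_X, MvPolynomial.aeval_rename, MvPolynomial.aeval_C]
    simp [Function.comp_def]
  have h3 : vl z (Fb D q (Sum.inr i)) = D i * ∏ l, z (Sum.inr (Sum.inr l)) ^ q i l := by
    rw [Fb, Sum.elim_inr, M.vl_mul, vl_yM]
    congr 1
    rw [vl, MvPolynomial.aeval_C]
    simp
  rw [fr, h1, h2, h3]
  rw [div_mul_eq_mul_div, div_div, mul_comm (D i : ℂ)]

omit [Fintype τ] [Fintype σ] in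
lemma fr_T (z : τ ⊕ (σ ⊕ ε) → ℂ) (A : σ → MvPolynomial τ ℤ) (c D : σ → ℤ) (p q : σ → ε → ℕ) (j : τ) :
    fr z (Fa A c p (Sum.inl j)) (Fb D q (Sum.inl j)) = z (Sum.inl j) := by
  rw [fr, Fa, Fb, Sum.elim_inl, Sum.elim_inl, M.vl_one, div_one, vl, MvPolynomial.aeval_X]

/-- **the family is in general position** -/
theorem gp_F (z : τ ⊕ (σ ⊕ ε) → ℂ) (hz : ∀ l, z (Sum.inr (Sum.inr l)) ≠ 0)
    (A : σ → MvPolynomial τ ℤ) (c D : σ → ℤ) (hc : ∀ i, c i ≠ 0) (hD : ∀ i, D i ≠ 0)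
    (p q : σ → ε → ℕ) : Gp z (Fa A c p) (Fb D q) := by
  classical
  have hy : ∀ r : ε → ℕ, vl z (yM r) ≠ 0 := fun r => by
    rw [vl_yM]; exact Finset.prod_ne_zero_iff.2 fun l _ => pow_ne_zero _ (hz l)
  have hDv : ∀ i, vl z (MvPolynomial.C (D i)) ≠ 0 := fun i => by
    rw [vl, MvPolynomial.aeval_C]
    simpa using hD i
  have hcv : ∀ i, vl z (MvPolynomial.C (c i)) ≠ 0 := fun i => by
    rw [vl, MvPolynomial.aeval_C]
    simpa using hc i
  refine gp_of_li z _ _ ?_ (li_piv z _ _ ?_ ?_ ?_ ?_)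
  · rintro (j | i)
    · rw [Fb, Sum.elim_inl, M.vl_one]; exact one_ne_zero
    · rw [Fb, Sum.elim_inr, M.vl_mul]
      exact mul_ne_zero (hDv i) (hy _)
  · intro j j'
    rw [gr, Fa, Fb, Sum.elim_inl, Sum.elim_inl]
    have h1 : MvPolynomial.pderiv (em (Sum.inl j')) (1 : MvPolynomial (τ ⊕ (σ ⊕ ε)) ℤ) = 0 :=
      MvPolynomial.pderiv_one
    rw [h1, mul_zero, sub_zero, one_mul]
    by_cases h : j = j'
    · rw [if_pos h, h]
      have h2 : (em (Sum.inl j' : τ ⊕ σ) : τ ⊕ (σ ⊕ ε)) = Sum.inl j' := rfl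
      rw [h2, MvPolynomial.pderiv_X_self, map_one]
    · rw [if_neg h]
      have h2 : (em (Sum.inl j' : τ ⊕ σ) : τ ⊕ (σ ⊕ ε)) = Sum.inl j' := rfl
      rw [h2, MvPolynomial.pderiv_X_of_ne (fun h3 => h (Sum.inl_injective h3)), map_zero]
  · intro j i
    rw [gr, Fa, Fb, Sum.elim_inl, Sum.elim_inl]
    have h1 : MvPolynomial.pderiv (em (Sum.inr i)) (1 : MvPolynomial (τ ⊕ (σ ⊕ ε)) ℤ) = 0 :=
      MvPolynomial.pderiv_one
    rw [h1, mul_zero, sub_zero, one_mul]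
    have h2 : (em (Sum.inr i : τ ⊕ σ) : τ ⊕ (σ ⊕ ε)) = Sum.inr (Sum.inl i) := rfl
    rw [h2, MvPolynomial.pderiv_X_of_ne (fun h3 => Sum.inl_ne_inr h3), map_zero]
  · intro i
    have h2 : (em (Sum.inr i : τ ⊕ σ) : τ ⊕ (σ ⊕ ε)) = Sum.inr (Sum.inl i) := rfl
    rw [gr, Fa, Fb, Sum.elim_inr, Sum.elim_inr, h2]
    have h3 : MvPolynomial.pderiv (Sum.inr (Sum.inl i) : τ ⊕ (σ ⊕ ε))
        (MvPolynomial.C (D i) * yM (q i)) = 0 := by
      rw [Derivation.leibniz, MvPolynomial.pderiv_C, pd_yM _ _ (fun l h => by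
        exact Sum.inl_ne_inr (Sum.inr_injective h))]
      simp
    have h4 : MvPolynomial.pderiv (Sum.inr (Sum.inl i) : τ ⊕ (σ ⊕ ε))
        (yM (p i) * (MvPolynomial.rename Sum.inl (A i) + MvPolynomial.C (c i) *
          MvPolynomial.X (Sum.inr (Sum.inl i)))) = yM (p i) * MvPolynomial.C (c i) := by
      rw [Derivation.leibniz, pd_yM _ _ (fun l h => by
        exact Sum.inl_ne_inr (Sum.inr_injective h)), map_add, pd_ren, Derivation.leibniz,
        MvPolynomial.pderiv_C, MvPolynomial.pderiv_X_self]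
      simp
    rw [h3, h4, mul_zero, sub_zero]
    change vl z _ ≠ 0
    rw [M.vl_mul, M.vl_mul, M.vl_mul]
    exact mul_ne_zero (mul_ne_zero (hDv i) (hy _)) (mul_ne_zero (hy _) (hcv i))
  · intro i i' hii
    have h2 : (em (Sum.inr i' : τ ⊕ σ) : τ ⊕ (σ ⊕ ε)) = Sum.inr (Sum.inl i') := rfl
    rw [gr, Fa, Fb, Sum.elim_inr, Sum.elim_inr, h2]
    have h3 : MvPolynomial.pderiv (Sum.inr (Sum.inl i') : τ ⊕ (σ ⊕ ε))
        (MvPolynomial.C (D i) * yM (q i)) = 0 := by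
      rw [Derivation.leibniz, MvPolynomial.pderiv_C, pd_yM _ _ (fun l h => by
        exact Sum.inl_ne_inr (Sum.inr_injective h))]
      simp
    have h4 : MvPolynomial.pderiv (Sum.inr (Sum.inl i') : τ ⊕ (σ ⊕ ε))
        (yM (p i) * (MvPolynomial.rename Sum.inl (A i) + MvPolynomial.C (c i) *
          MvPolynomial.X (Sum.inr (Sum.inl i)))) = 0 := by
      rw [Derivation.leibniz, pd_yM _ _ (fun l h => by
        exact Sum.inl_ne_inr (Sum.inr_injective h)), map_add, pd_ren, Derivation.leibniz,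
        MvPolynomial.pderiv_C, MvPolynomial.pderiv_X_of_ne (fun h5 => hii
          (Sum.inl_injective (Sum.inr_injective h5)))]
      simp
    rw [h3, h4, mul_zero, mul_zero, sub_zero, map_zero]

/-- **the joint measure for the numbers `y_j` and `e^α (A(y) + c x_i) / D`** -/
theorem jm_F (θ : σ → ℂ) (η : ε → ℂ) (hη0 : ∀ l, η l ≠ 0) (hθ : M.Meas (Sum.elim θ η))
    (A : σ → MvPolynomial τ ℤ) (c D : σ → ℤ) (hc : ∀ i, c i ≠ 0) (hD : ∀ i, D i ≠ 0)
    (e : σ → ε → ℤ) (d : ℕ) : ∃ k₁ : ℕ, ∀ y : τ → ℂ, ∃ h₁ : ℝ, 1 ≤ h₁ ∧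
      Jm (Fintype.card τ) η (Sum.elim y fun i => (∏ l, η l ^ e i l) *
        (MvPolynomial.aeval y (A i) + c i * θ i) / D i) d k₁ h₁ := by
  classical
  obtain ⟨k₁, h⟩ := S.joint (τ := τ) (Sum.elim θ η) hθ (Fa A c fun i l => (e i l).toNat)
    (Fb D fun i l => (-e i l).toNat) d
  refine ⟨k₁, fun y => ?_⟩
  obtain ⟨z, hz⟩ : ∃ z : τ ⊕ (σ ⊕ ε) → ℂ, z = Sum.elim y (Sum.elim θ η) := ⟨_, rfl⟩
  have hzη : ∀ l, z (Sum.inr (Sum.inr l)) = η l := fun l => by rw [hz]; rfl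
  obtain ⟨h₁, hh₁, h⟩ := h y (by
    rw [← hz]
    exact gp_F z (fun l => by rw [hzη]; exact hη0 l) A c D hc hD _ _)
  refine ⟨h₁, hh₁, fun H hH S hS P hP => ?_⟩
  obtain ⟨i, hi, hlt⟩ := h H hH S hS P hP
  refine ⟨i, hi, ?_⟩
  rw [← hz] at hlt
  have hpu : pu z (fr z (Fa A c (fun i l => (e i l).toNat) i) (Fb D (fun i l => (-e i l).toNat) i)) =
      M.pt ((Sum.elim y fun i => (∏ l, η l ^ e i l) *
        (MvPolynomial.aeval y (A i) + c i * θ i) / D i) i) η := by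
    have h3 : fr z (Fa A c (fun i l => (e i l).toNat) i) (Fb D (fun i l => (-e i l).toNat) i) =
        (Sum.elim y fun i => (∏ l, η l ^ e i l) *
        (MvPolynomial.aeval y (A i) + c i * θ i) / D i) i := by
      rcases i with j | i
      · rw [fr_T, hz]; rfl
      · rw [fr_F _ (fun l => by rw [hzη]; exact hη0 l), Sum.elim_inr]
        congr 2
        · refine Finset.prod_congr rfl fun l _ => ?_
          rw [hzη]
          congr 1
          omega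
        · rw [hz]; rfl
    rw [h3, hz]
    rfl
  rw [hpu] at hlt
  exact hlt

end Pool.Agent.H488.E
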