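import Pool.Agent.H488.E.Sys
import Pool.Agent.H488.M.Ins

/-!
# A measure of algebraic independence for the values of the elements of the algebra
-/

set_option autoImplicit false
set_option linter.unusedSectionVars false

open PowerSeries

namespace Pool.Agent.H488.E

open Pool.Agent.Y113 Pool.Agent.R352.E Pool.Agent.N902.EW
open Pool.Agent.H488.M (Meas Bd vl_le)
open Pool.Agent.H596.Q (box mem_box)

section union

variable {K : Type*} [Field K] [CharZero K]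

/-- a union of stable sets is stable -/
lemma stb_biUnion [DecidableEq K] {κ : Type*} [Fintype κ] [Nonempty κ] (J : κ → Finset (K × List K))
    (h : ∀ i, Stb (J i)) : Stb (Finset.univ.biUnion J) := by
  refine ⟨fun x hx => ?_, ?_, fun m b u hx => ?_⟩
  · obtain ⟨i, -, hi⟩ := Finset.mem_biUnion.1 hx
    exact (h i).adm x hi
  · obtain ⟨i⟩ := (inferInstance : Nonempty κ)
    exact Finset.mem_biUnion.2 ⟨i, Finset.mem_univ i, (h i).one⟩
  · obtain ⟨i, -, hi⟩ := Finset.mem_biUnion.1 hx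
    have := (h i).cl m b u hi
    exact ⟨Finset.mem_biUnion.2 ⟨i, Finset.mem_univ i, this.1⟩,
      Finset.mem_biUnion.2 ⟨i, Finset.mem_univ i, this.2⟩⟩

lemma VI_mono {I J : Finset (K × List K)} (h : I ⊆ J) : VI I ≤ VI J :=
  Submodule.span_mono (Set.image_mono (by exact_mod_cast h))

end union

section field

variable {K : Type*} [Field K] [NumberField K]

/-- the action of a field automorphism -/
noncomputable def act (σ : K ≃ₐ[ℚ] K) : AA K →+* AA K where
  toFun f := ⟨PowerSeries.map (σ : K →+* K) f.1, map_SA _ f.2⟩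
  map_one' := Subtype.ext (map_one _)
  map_zero' := Subtype.ext (map_zero _)
  map_mul' _ _ := Subtype.ext (map_mul _ _ _)
  map_add' _ _ := Subtype.ext (map_add _ _ _)

lemma act_val (σ : K ≃ₐ[ℚ] K) (f : AA K) : (act σ f).1 = PowerSeries.map (σ : K →+* K) f.1 := rfl

lemma act_act (σ τ : K ≃ₐ[ℚ] K) (f : AA K) : act σ (act τ f) = act (σ * τ) f := by
  apply Subtype.ext
  ext n
  rw [act_val, act_val, act_val, coeff_map, coeff_map, coeff_map]
  rfl

lemma act_one (f : AA K) : act (1 : K ≃ₐ[ℚ] K) f = f := by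
  apply Subtype.ext
  ext n
  rw [act_val, coeff_map]
  rfl

lemma act_inj (σ : K ≃ₐ[ℚ] K) : Function.Injective (act σ) := by
  intro f g h
  exact Subtype.ext (PowerSeries.map_injective _ (σ : K →+* K).injective (congrArg Subtype.val h))

/-- the value of an integer polynomial -/
noncomputable def pv {R ι : Type*} [CommRing R] (g : ι → R) (P : MvPolynomial ι ℤ) : R :=
  MvPolynomial.eval₂ (Int.castRingHom R) g P

lemma pv_map {R S ι : Type*} [CommRing R] [CommRing S] (f : R →+* S) (g : ι → R)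
    (P : MvPolynomial ι ℤ) : f (pv g P) = pv (fun i => f (g i)) P := by
  rw [pv, pv, ← MvPolynomial.coe_eval₂Hom, ← MvPolynomial.coe_eval₂Hom]
  have h : f.comp (MvPolynomial.eval₂Hom (Int.castRingHom R) g) =
      MvPolynomial.eval₂Hom (Int.castRingHom S) fun i => f (g i) := by
    refine MvPolynomial.ringHom_ext (fun r => ?_) fun i => ?_
    · simp
    · simp
  exact congrArg (fun F : MvPolynomial ι ℤ →+* S => F P) h

lemma pv_aeval {ι : Type*} (g : ι → ℂ) (P : MvPolynomial ι ℤ) :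
    pv g P = MvPolynomial.aeval g P := by
  rw [pv, MvPolynomial.aeval_def]
  rfl

/-- values of polynomials as sums over a fixed set of monomials -/
lemma pv_box {R ι : Type*} [CommRing R] [Fintype ι] (g : ι → R) (d : ℕ) (P : MvPolynomial ι ℤ)
    (hd : ∀ o, P.degreeOf o ≤ d) :
    pv g P = ∑ m : box ι d, ((P.coeff m : ℤ) : R) * ∏ i, g i ^ (m : ι →₀ ℕ) i := by
  classical
  rw [pv, MvPolynomial.eval₂_eq']
  have h1 : P.support ⊆ box ι d := fun m hm =>
    mem_box d m fun i => (MvPolynomial.degreeOf_le_iff.1 (hd i)) m hm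
  rw [Finset.sum_subset h1 fun m _ hm => by
    rw [MvPolynomial.notMem_support_iff.1 hm, map_zero, zero_mul]]
  rw [← Finset.sum_coe_sort (box ι d)]
  rfl

variable [IsGalois ℚ K]

/-- **A measure of algebraic independence over a number field.** -/
theorem meas_K (φ : K →+* ℂ) {ι : Type} [Fintype ι] (g : ι → AA K) (hg : ∀ P : MvPolynomial ι ℤ,
    pv g P = 0 → P = 0) : Meas fun i => evA φ (g i) := by
  classical
  intro d
  obtain ⟨G, hGd⟩ : ∃ G : ℕ, G = Fintype.card (K ≃ₐ[ℚ] K) := ⟨_, rfl⟩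
  have hGpos : 0 < G := by rw [hGd]; exact Fintype.card_pos
  -- the products
  let M : ((K ≃ₐ[ℚ] K) → box ι d) → AA K := fun μ =>
    ∏ σ, act σ (∏ i, g i ^ (μ σ : ι →₀ ℕ) i)
  let T : ((K ≃ₐ[ℚ] K) → box ι d) → AA K := fun μ => ∑ τ : K ≃ₐ[ℚ] K, act τ (M μ)
  have hTinv : ∀ μ (σ : K ≃ₐ[ℚ] K), act σ (T μ) = T μ := by
    intro μ σ
    show act σ (∑ τ : K ≃ₐ[ℚ] K, act τ (M μ)) = _
    rw [map_sum]
    refine Fintype.sum_equiv (Equiv.mulLeft σ) _ _ fun τ => ?_
    rw [act_act]; rfl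
  let ρ : (K ≃ₐ[ℚ] K) →* (K ≃+* K) :=
    { toFun := fun σ => σ.toRingEquiv
      map_one' := rfl
      map_mul' := fun _ _ => rfl }
  have hst : ∀ μ, ∃ I : Finset (K × List K), Stb I ∧ (T μ).1 ∈ VI I ∧
      ∀ (σ : K ≃ₐ[ℚ] K), ∀ x ∈ I, mx (ρ σ : K →+* K) x ∈ I := fun μ => exists_Stb ρ (T μ).2
  choose J hJ hJT hJG using hst
  have hne : Nonempty ((K ≃ₐ[ℚ] K) → box ι d) := ⟨fun _ => ⟨0, mem_box d 0 fun _ => Nat.zero_le _⟩⟩
  obtain ⟨I, hId⟩ : ∃ I : Finset (K × List K), I = Finset.univ.biUnion J := ⟨_, rfl⟩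
  have hI : Stb I := by rw [hId]; exact stb_biUnion J hJ
  have hIG : ∀ (σ : K ≃ₐ[ℚ] K), ∀ x ∈ I, mx (σ : K →+* K) x ∈ I := by
    intro σ x hx
    rw [hId] at hx ⊢
    obtain ⟨μ, -, hμ⟩ := Finset.mem_biUnion.1 hx
    exact Finset.mem_biUnion.2 ⟨μ, Finset.mem_univ μ, hJG μ σ x hμ⟩
  have hTI : ∀ μ, (T μ).1 ∈ VI I := fun μ => VI_mono (by
    rw [hId]; exact Finset.subset_biUnion_of_mem J (Finset.mem_univ μ)) (hJT μ)
  obtain ⟨N, y, hy, hrep, hLI, κ, c, hc, hmeas⟩ := meas_W0 φ hI hIG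
  have hTb : ∀ μ, ∃ t : ℚ⟦X⟧, bc K t = (T μ).1 := fun μ =>
    exists_bc fun σ => congrArg Subtype.val (hTinv μ σ)
  choose t ht using hTb
  have htW : ∀ μ, t μ ∈ W0 I := fun μ => by rw [mem_W0, ht]; exact hTI μ
  choose cc hcc using fun μ => hrep (t μ) (htW μ)
  obtain ⟨q, hq, z, hz⟩ := exists_den
    (fun p : ((K ≃ₐ[ℚ] K) → box ι d) × Fin N => cc p.1 p.2)
  obtain ⟨Z, hZ⟩ : ∃ Z : ℝ, Z = 1 + ∑ p : ((K ≃ₐ[ℚ] K) → box ι d) × Fin N, |(z p : ℝ)| := ⟨_, rfl⟩
  have hZ1 : 1 ≤ Z := by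
    rw [hZ]
    have : 0 ≤ ∑ p : ((K ≃ₐ[ℚ] K) → box ι d) × Fin N, |(z p : ℝ)| :=
      Finset.sum_nonneg fun _ _ => abs_nonneg _
    linarith
  -- the bound for the conjugates
  have hB : ∀ σ : K ≃ₐ[ℚ] K, ∃ B : ℝ, 1 ≤ B ∧ ∀ (P : MvPolynomial ι ℤ) (H : ℝ), 0 ≤ H → Bd d H P →
      ‖MvPolynomial.aeval (fun i => evA φ (act σ (g i))) P‖ ≤ B * H := fun σ => vl_le _ d
  choose B hB1 hB using hB
  obtain ⟨B', hB'⟩ : ∃ B' : ℝ, B' = ∏ σ : K ≃ₐ[ℚ] K, B σ := ⟨_, rfl⟩
  have hB'1 : 1 ≤ B' := by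
    rw [hB']
    calc (1 : ℝ) = ∏ _σ : K ≃ₐ[ℚ] K, (1 : ℝ) := by simp
      _ ≤ _ := Finset.prod_le_prod (fun _ _ => zero_le_one) fun σ _ => hB1 σ
  refine ⟨G * κ + G, c / (Z ^ κ * (q * G * B')), by positivity, fun P hP H hH hPB => ?_⟩
  have hH0 : 0 < H := by linarith
  -- the norm
  obtain ⟨F, hF⟩ : ∃ F : AA K, F = ∏ σ, act σ (pv g P) := ⟨_, rfl⟩
  have hF0 : F ≠ 0 := by
    rw [hF, Finset.prod_ne_zero_iff]
    intro σ _ h0
    refine hP (hg P (act_inj σ ?_))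
    rw [h0, map_zero]
  have hFinv : ∀ τ, act τ F = F := by
    intro τ
    rw [hF, map_prod]
    refine Fintype.prod_equiv (Equiv.mulLeft τ) _ _ fun σ => ?_
    rw [act_act]; rfl
  obtain ⟨p, hp⟩ : ∃ p : ((K ≃ₐ[ℚ] K) → box ι d) → ℤ, p = fun μ => ∏ σ, P.coeff (μ σ) := ⟨_, rfl⟩
  have hpB : ∀ μ, |(p μ : ℝ)| ≤ H ^ G := by
    intro μ
    rw [hp, hGd]
    push_cast
    rw [Finset.abs_prod]
    calc ∏ σ : K ≃ₐ[ℚ] K, |((P.coeff (μ σ) : ℤ) : ℝ)| ≤ ∏ _σ : K ≃ₐ[ℚ] K, H :=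
          Finset.prod_le_prod (fun _ _ => abs_nonneg _) fun σ _ => hPB.2 _
      _ = _ := by rw [Finset.prod_const, Finset.card_univ]
  have hFM : F = ∑ μ, ((p μ : ℤ) : AA K) * M μ := by
    rw [hF]
    have h1 : ∀ σ : K ≃ₐ[ℚ] K, act σ (pv g P) =
        ∑ m : box ι d, ((P.coeff m : ℤ) : AA K) * act σ (∏ i, g i ^ (m : ι →₀ ℕ) i) := by
      intro σ
      rw [pv_box g d P hPB.1, map_sum]
      exact Finset.sum_congr rfl fun m _ => by rw [map_mul, map_intCast]
    rw [Finset.prod_congr rfl fun σ _ => h1 σ, Finset.prod_univ_sum, Fintype.piFinset_univ]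
    refine Finset.sum_congr rfl fun μ _ => ?_
    rw [Finset.prod_mul_distrib, hp]
    push_cast
    rfl
  have hFT : (G : AA K) * F = ∑ μ, ((p μ : ℤ) : AA K) * T μ := by
    have h1 : (G : AA K) * F = ∑ τ : K ≃ₐ[ℚ] K, act τ F := by
      rw [Finset.sum_congr rfl fun τ _ => hFinv τ, Finset.sum_const, Finset.card_univ, hGd,
        nsmul_eq_mul]
    rw [h1, hFM]
    have h2 : ∀ τ : K ≃ₐ[ℚ] K, act τ (∑ μ, ((p μ : ℤ) : AA K) * M μ) =
        ∑ μ, ((p μ : ℤ) : AA K) * act τ (M μ) := by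
      intro τ
      rw [map_sum]
      exact Finset.sum_congr rfl fun μ _ => by rw [map_mul, map_intCast]
    rw [Finset.sum_congr rfl fun τ _ => h2 τ, Finset.sum_comm]
    exact Finset.sum_congr rfl fun μ _ => by rw [← Finset.mul_sum]
  -- the coefficients
  obtain ⟨a, ha⟩ : ∃ a : Fin N → ℤ, a = fun i => ∑ μ, p μ * z (μ, i) := ⟨_, rfl⟩
  have haB : ∀ i, |(a i : ℝ)| ≤ Z * H ^ G := by
    intro i
    rw [ha]
    push_cast
    calc |∑ μ, (p μ : ℝ) * (z (μ, i) : ℝ)| ≤ ∑ μ, |(p μ : ℝ) * (z (μ, i) : ℝ)| :=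
          Finset.abs_sum_le_sum_abs _ _
      _ ≤ ∑ μ, H ^ G * |(z (μ, i) : ℝ)| := by
          refine Finset.sum_le_sum fun μ _ => ?_
          rw [abs_mul]
          exact mul_le_mul_of_nonneg_right (hpB μ) (abs_nonneg _)
      _ = H ^ G * ∑ μ, |(z (μ, i) : ℝ)| := by rw [Finset.mul_sum]
      _ ≤ H ^ G * Z := by
          refine mul_le_mul_of_nonneg_left ?_ (by positivity)
          rw [hZ]
          have h1 : ∑ μ, |(z (μ, i) : ℝ)| ≤ ∑ p : ((K ≃ₐ[ℚ] K) → box ι d) × Fin N, |(z p : ℝ)| := by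
            rw [Fintype.sum_prod_type]
            refine Finset.sum_le_sum fun μ _ => ?_
            exact Finset.single_le_sum (f := fun i => |(z (μ, i) : ℝ)|) (fun _ _ => abs_nonneg _)
              (Finset.mem_univ i)
          linarith
      _ = _ := by ring
  have hsum : ∑ i, (a i : ℚ) • y i = (q : ℚ) • ∑ μ, (p μ : ℚ) • t μ := by
    have h1 : ∀ i, (a i : ℚ) • y i = ∑ μ, (p μ : ℚ) • ((z (μ, i) : ℚ) • y i) := by
      intro i
      rw [ha]
      push_cast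
      rw [Finset.sum_smul]
      exact Finset.sum_congr rfl fun μ _ => by rw [mul_smul]
    rw [Finset.sum_congr rfl fun i _ => h1 i, Finset.sum_comm, Finset.smul_sum]
    refine Finset.sum_congr rfl fun μ _ => ?_
    rw [← Finset.smul_sum, smul_comm (q : ℚ) (p μ : ℚ) (t μ)]
    congr 1
    conv_rhs => rw [hcc μ, Finset.smul_sum]
    refine Finset.sum_congr rfl fun i _ => ?_
    rw [hz (μ, i), mul_smul]
  have hval : bc K (∑ i, (a i : ℚ) • y i) = ((q * G : ℕ) : AA K).1 * F.1 := by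
    rw [hsum, bc_smul, map_sum]
    have h1 : ∀ μ, bc K ((p μ : ℚ) • t μ) = (((p μ : ℤ) : AA K) * T μ).1 := by
      intro μ
      rw [bc_smul, ht, smul_eq_C_mul]
      show _ = ((p μ : ℤ) : AA K).1 * (T μ).1
      congr 1
      have h2 : ((p μ : ℤ) : AA K).1 = ((p μ : ℤ) : K⟦X⟧) := by
        exact map_intCast (AA K).val (p μ)
      rw [h2]
      simp
    rw [Finset.sum_congr rfl fun μ _ => h1 μ]
    have h3 : ∑ μ, (((p μ : ℤ) : AA K) * T μ).1 = ((G : AA K) * F).1 := by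
      rw [hFT]
      exact (map_sum (AA K).val (fun μ => ((p μ : ℤ) : AA K) * T μ) Finset.univ).symm
    rw [h3, smul_eq_C_mul]
    have h4 : ((q * G : ℕ) : AA K).1 = ((q * G : ℕ) : K⟦X⟧) := map_natCast (AA K).val _
    have h5 : ((G : AA K) * F).1 = (G : K⟦X⟧) * F.1 := by
      show ((G : ℕ) : AA K).1 * F.1 = _
      rw [show ((G : ℕ) : AA K).1 = ((G : ℕ) : K⟦X⟧) from map_natCast (AA K).val _]
    rw [h4, h5]
    push_cast
    rw [← mul_assoc]
    congr 2
  have ha0 : a ≠ 0 := by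
    intro h0
    have h1 : bc K (∑ i, (a i : ℚ) • y i) = 0 := by
      rw [h0]; simp
    rw [h1] at hval
    have h2 : ((q * G : ℕ) : AA K) * F = 0 := Subtype.ext hval.symm
    rcases mul_eq_zero.1 h2 with h3 | h3
    · have h4 : (((q * G : ℕ) : AA K).1 : K⟦X⟧) = 0 := congrArg Subtype.val h3
      rw [show (((q * G : ℕ) : AA K).1 : K⟦X⟧) = ((q * G : ℕ) : K⟦X⟧) from map_natCast (AA K).val _] at h4
      have h5 := congrArg (constantCoeff (R := K)) h4
      rw [map_natCast, map_zero, Nat.cast_eq_zero] at h5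
      have : 0 < q * G := Nat.mul_pos hq hGpos
      omega
    · exact hF0 h3
  have hev : ((∑ i, (a i : ℝ) * ev 1 (y i) : ℝ) : ℂ) = ((q * G : ℕ) : ℂ) * evA φ F := by
    have h0 : evA φ (((q * G : ℕ) : AA K) * F) = ((q * G : ℕ) : ℂ) * evA φ F := by
      rw [map_mul, map_natCast]
    rw [← h0]
    show _ = evk φ (((q * G : ℕ) : AA K).1 * F.1)
    rw [← hval]
    have h3 : ∀ s : Finset (Fin N), EFK φ (bc K (∑ i ∈ s, (a i : ℚ) • y i)) ∧
        evk φ (bc K (∑ i ∈ s, (a i : ℚ) • y i)) = ((∑ i ∈ s, (a i : ℝ) * ev 1 (y i) : ℝ) : ℂ) := by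
      intro s
      induction s using Finset.induction_on with
      | empty =>
        rw [Finset.sum_empty, Finset.sum_empty, map_zero]
        exact ⟨EFK.zero, by rw [evk_zero]; simp⟩
      | insert i s hi ih =>
        have h4 : EFK φ (bc K (y i)) := EFK.of_mem (VI_le hI (mem_W0.1 (hy i)))
        rw [Finset.sum_insert hi, Finset.sum_insert hi, map_add, bc_smul]
        refine ⟨(h4.smul _).add ih.1, ?_⟩
        rw [evk_add (h4.smul _) ih.1, ih.2, evk_smul, evk_bc, Complex.ofReal_add]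
        congr 1
        push_cast
        simp
    exact (h3 Finset.univ).2.symm
  have hprod : ‖evA φ F‖ ≤ ‖MvPolynomial.aeval (fun i => evA φ (g i)) P‖ * (B' * H ^ G) := by
    rw [hF, map_prod, norm_prod]
    have h1 : ∀ σ : K ≃ₐ[ℚ] K, evA φ (act σ (pv g P)) =
        MvPolynomial.aeval (fun i => evA φ (act σ (g i))) P := by
      intro σ
      rw [pv_map, pv_map, pv_aeval]
    rw [← Finset.mul_prod_erase Finset.univ _ (Finset.mem_univ (1 : K ≃ₐ[ℚ] K))]
    have h2 : evA φ (act (1 : K ≃ₐ[ℚ] K) (pv g P)) =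
        MvPolynomial.aeval (fun i => evA φ (g i)) P := by
      rw [act_one, pv_map, pv_aeval]
    rw [h2]
    refine mul_le_mul_of_nonneg_left ?_ (norm_nonneg _)
    calc ∏ σ ∈ Finset.univ.erase (1 : K ≃ₐ[ℚ] K), ‖evA φ (act σ (pv g P))‖
        ≤ ∏ σ ∈ Finset.univ.erase (1 : K ≃ₐ[ℚ] K), (B σ * H) := by
          refine Finset.prod_le_prod (fun _ _ => norm_nonneg _) fun σ _ => ?_
          rw [h1]
          exact hB σ P H hH0.le hPB
      _ ≤ (B 1 * H) * ∏ σ ∈ Finset.univ.erase (1 : K ≃ₐ[ℚ] K), (B σ * H) := by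
          refine le_mul_of_one_le_left (Finset.prod_nonneg fun σ _ => ?_) ?_
          · have := hB1 σ
            positivity
          · exact one_le_mul_of_one_le_of_one_le (hB1 1) hH
      _ = ∏ σ : K ≃ₐ[ℚ] K, (B σ * H) :=
          Finset.mul_prod_erase Finset.univ (fun σ => B σ * H) (Finset.mem_univ 1)
      _ = B' * H ^ G := by
          rw [Finset.prod_mul_distrib, Finset.prod_const, Finset.card_univ, hB', hGd]
  have hA1 : 1 ≤ Z * H ^ G := one_le_mul_of_one_le_of_one_le hZ1 (one_le_pow₀ hH)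
  have hfin := hmeas a ha0 (Z * H ^ G) hA1 haB
  have habs : |∑ i, (a i : ℝ) * ev 1 (y i)| = (q * G) * ‖evA φ F‖ := by
    rw [← Real.norm_eq_abs, ← Complex.norm_real, hev, norm_mul, Complex.norm_natCast]
    push_cast
    rfl
  rw [habs] at hfin
  have hq0 : (0 : ℝ) < q := by exact_mod_cast hq
  have hG0 : (0 : ℝ) < G := by exact_mod_cast hGpos
  rw [div_le_iff₀ (by positivity)]
  refine hfin.trans ?_
  calc (Z * H ^ G) ^ κ * (q * G * ‖evA φ F‖) ≤ (Z * H ^ G) ^ κ *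
        (q * G * (‖MvPolynomial.aeval (fun i => evA φ (g i)) P‖ * (B' * H ^ G))) := by
        refine mul_le_mul_of_nonneg_left (mul_le_mul_of_nonneg_left hprod (by positivity))
          (by positivity)
    _ = _ := by
        rw [mul_pow, ← pow_mul, pow_add]
        ring

end field

end Pool.Agent.H488.E
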