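import Pool.Agent.H488.E.Meas

/-!
# A measure of algebraic independence for independent elements of the ring of values
-/

set_option autoImplicit false
set_option linter.unusedSectionVars false

open PowerSeries

namespace Pool.Agent.H488.E

open Pool.Agent.N902.EW
open Pool.Agent.H488.M (Meas Bd)

/-- the homomorphism of the algebras given by a homomorphism of the fields -/
noncomputable def mapA {K L : Type*} [Field K] [CharZero K] [Field L] [CharZero L] (ψ : K →+* L) :
    AA K →+* AA L where
  toFun f := ⟨PowerSeries.map ψ f.1, map_SA ψ f.2⟩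
  map_one' := Subtype.ext (map_one _)
  map_zero' := Subtype.ext (map_zero _)
  map_mul' _ _ := Subtype.ext (map_mul _ _ _)
  map_add' _ _ := Subtype.ext (map_add _ _ _)

/-- **A measure of algebraic independence**, over the algebraic numbers -/
theorem meas_Qb {ι : Type} [Fintype ι] (f : ι → AA Qb)
    (hf : ∀ P : MvPolynomial ι ℤ, pv f P = 0 → P = 0) : Meas fun i => evA io (f i) := by
  classical
  choose s c hs hfs using fun i => exists_sum (f i).2
  -- the finite set of all elements which occur
  let S : Finset Qb := Finset.univ.biUnion fun i =>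
    (s i).image (c i) ∪ (s i).image Prod.fst ∪ (s i).biUnion fun x => x.2.toFinset
  let M : FiniteGaloisIntermediateField ℚ Qb := FiniteGaloisIntermediateField.adjoin ℚ (S : Set Qb)
  let ψ : M.toIntermediateField →+* Qb := algebraMap M.toIntermediateField Qb
  have hM : ∀ a ∈ S, a ∈ Set.range ψ := fun a ha =>
    ⟨⟨a, FiniteGaloisIntermediateField.subset_adjoin ℚ (S : Set Qb) ha⟩, rfl⟩
  have hS : ∀ i a, a ∈ (s i).image (c i) ∪ (s i).image Prod.fst ∪ (s i).biUnion
      (fun x => x.2.toFinset) → a ∈ S := fun i a ha =>
    Finset.mem_biUnion.2 ⟨i, Finset.mem_univ i, ha⟩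
  have hx : ∀ i, ∀ x ∈ s i, ∃ (d : M.toIntermediateField)
      (y : M.toIntermediateField × List M.toIntermediateField), ψ d = c i x ∧ mx ψ y = x := by
    intro i x hx
    obtain ⟨d, hd⟩ := hM (c i x) (hS i _ (by
      simp only [Finset.mem_union, Finset.mem_image]; exact Or.inl (Or.inl ⟨x, hx, rfl⟩)))
    obtain ⟨l, hl⟩ := hM x.1 (hS i _ (by
      simp only [Finset.mem_union, Finset.mem_image]; exact Or.inl (Or.inr ⟨x, hx, rfl⟩)))
    obtain ⟨w, hw⟩ := exists_list ψ x.2 fun a ha => hM a (hS i _ (by
      simp only [Finset.mem_union, Finset.mem_biUnion, List.mem_toFinset]; exact Or.inr ⟨x, hx, ha⟩))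
    exact ⟨d, (l, w), hd, Prod.ext hl hw⟩
  choose! d y hd hy using hx
  have hadm : ∀ i, ∀ x ∈ s i, Adm (y i x).2 := fun i x hx => by
    apply adm_of_map ψ
    have := congrArg Prod.snd (hy i x hx)
    simp only [mx] at this
    rw [this]
    exact hs i x hx
  have hmem : ∀ i, (∑ x ∈ s i, d i x • bf (y i x)) ∈ SA M.toIntermediateField := fun i =>
    Submodule.sum_mem _ fun x hx => Submodule.smul_mem _ _ (bf_mem (hadm i x hx))
  let g : ι → AA M.toIntermediateField := fun i => ⟨∑ x ∈ s i, d i x • bf (y i x), hmem i⟩
  have hgf : ∀ i, mapA ψ (g i) = f i := by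
    intro i
    apply Subtype.ext
    show PowerSeries.map ψ (∑ x ∈ s i, d i x • bf (y i x)) = (f i).1
    rw [hfs, map_sum]
    exact Finset.sum_congr rfl fun x hx => by rw [map_smul', map_bf, hd i x hx, hy i x hx]
  have hnf : NumberField M.toIntermediateField :=
    { to_charZero := inferInstance, to_finiteDimensional := inferInstance }
  have hgal : IsGalois ℚ M.toIntermediateField := M.isGalois
  have h1 := meas_K (io.comp ψ) g fun P hP => hf P (by
    have h2 := congrArg (mapA ψ) hP
    rw [pv_map, map_zero] at h2
    rw [← h2]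
    congr 1
    funext i
    exact (hgf i).symm)
  have h2 : (fun i => evA (io.comp ψ) (g i)) = fun i => evA io (f i) := by
    funext i
    rw [← hgf i]
    show evk (io.comp ψ) (g i).1 = evk io (PowerSeries.map ψ (g i).1)
    rw [evk_map]
  rw [h2] at h1
  exact h1

/-- **Independent numbers in the ring of values have a measure of algebraic independence.** -/
theorem meas_range {ι : Type} [Fintype ι] (w : ι → ℂ) (hw : ∀ i, w i ∈ (evA io).range)
    (h : AlgebraicIndependent ℚ w) : Meas w := by
  choose f hf using hw
  have h1 := meas_Qb f fun P hP => by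
    have h2 := congrArg (evA io) hP
    rw [pv_map, map_zero, pv_aeval] at h2
    have h3 : (fun i => evA io (f i)) = w := funext hf
    rw [h3] at h2
    have h4 : AlgebraicIndependent ℤ w := h.restrictScalars (FaithfulSMul.algebraMap_injective ℤ ℚ)
    exact (algebraicIndependent_iff.1 h4) P h2
  have h3 : (fun i => evA io (f i)) = w := funext hf
  rwa [h3] at h1

end Pool.Agent.H488.E
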