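import Pool.Graph.R_pool_sql_team_seeded_63374d34.N902.EW.Qb
import Pool.Graph.R_pool_sql_team_seeded_63374d34.N743.SS.Meas

/-!
# A measure of linear independence for the Galois invariant elements of a stable span
-/

set_option autoImplicit false
set_option linter.unusedSectionVars false

open PowerSeries

namespace Pool.Agent.H488.E

open Pool.Agent.Y113 Pool.Agent.R352.E Pool.Agent.N902.EW

section

variable {K : Type*} [Field K] [NumberField K] [IsGalois ℚ K]

/-- a rational basis of the rational power series in a stable span, with a measure of linear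
independence of the values at `1` -/
theorem meas_W0 (φ : K →+* ℂ) {I : Finset (K × List K)} (hI : Stb I)
    (hG' : ∀ (σ : K ≃ₐ[ℚ] K), ∀ x ∈ I, mx (σ : K →+* K) x ∈ I) :
    ∃ (N : ℕ) (y : Fin N → ℚ⟦X⟧), (∀ i, y i ∈ W0 I) ∧
      (∀ g ∈ W0 I, ∃ c : Fin N → ℚ, g = ∑ i, c i • y i) ∧ LinearIndependent ℚ y ∧
      ∃ (κ : ℕ) (c : ℝ), 0 < c ∧ ∀ a : Fin N → ℤ, a ≠ 0 → ∀ A : ℝ, 1 ≤ A →
        (∀ i, |(a i : ℝ)| ≤ A) → c ≤ A ^ κ * |∑ i, (a i : ℝ) * ev 1 (y i)| := by
  classical
  have := fin_W0 I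
  have h1mem : (1 : ℚ⟦X⟧) ∈ W0 I := by rw [mem_W0, map_one]; exact one_mem_VI hI
  set o : W0 I := ⟨1, h1mem⟩ with ho
  have ho0 : o ≠ 0 := fun h => one_ne_zero (congrArg Subtype.val h)
  have hs : LinearIndepOn ℚ id ({o} : Set (W0 I)) := LinearIndepOn.singleton ho0
  let b := Module.Basis.extend hs
  have : Fintype (hs.extend (Set.subset_univ _)) := FiniteDimensional.fintypeBasisIndex b
  let e := Fintype.equivFin (hs.extend (Set.subset_univ _))
  let N := Fintype.card (hs.extend (Set.subset_univ _))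
  let y : Fin N → ℚ⟦X⟧ := fun i => (b (e.symm i)).1
  let B := b.reindex e
  have hBy : ∀ i, (B i : W0 I).1 = y i := fun i => by simp only [B, y, Module.Basis.reindex_apply]
  have hrep : ∀ g ∈ W0 I, ∃ c : Fin N → ℚ, g = ∑ i, c i • y i := by
    intro g hg
    refine ⟨fun i => B.repr ⟨g, hg⟩ i, ?_⟩
    have h1 : g = ((∑ i, B.repr ⟨g, hg⟩ i • B i : W0 I) : ℚ⟦X⟧) := by rw [B.sum_repr]
    conv_lhs => rw [h1]
    rw [Submodule.coe_sum]
    exact Finset.sum_congr rfl fun i _ => by rw [Submodule.coe_smul, hBy]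
  have hLI0 : LinearIndependent ℚ y := by
    have h1 : LinearIndependent ℚ (fun i => (W0 I).subtype (B i)) :=
      B.linearIndependent.map' (W0 I).subtype (Submodule.ker_subtype _)
    have h2 : (fun i => (W0 I).subtype (B i)) = y := funext fun i => hBy i
    rwa [h2] at h1
  have hymem : ∀ i, y i ∈ W0 I := fun i => (b (e.symm i)).2
  -- the element `1`
  let i₀ : Fin N := e ⟨o, (Module.Basis.subset_extend hs) (Set.mem_singleton o)⟩
  have hi₀ : y i₀ = 1 := by
    simp only [y, i₀, Equiv.symm_apply_apply, b]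
    rw [Module.Basis.extend_apply_self]
  -- the functions are E-functions
  have hEF : ∀ i, EF (y i) := fun i => EF_of_bc (EFK.of_mem (φ := φ) (VI_le hI (mem_W0.1 (hymem i))))
  obtain ⟨C, hC, hsize, hden⟩ := EF.common hEF
  -- the differential system
  have hder : ∀ i, ∃ a b : Fin N → ℚ, th (y i) = ∑ j, (a j • y j + X * (b j • y j)) := by
    intro i
    obtain ⟨g, hg, h, hh, e1⟩ := W0_th hI hG' (hymem i)
    obtain ⟨a, ha⟩ := hrep g hg
    obtain ⟨b, hb⟩ := hrep h hh
    refine ⟨a, b, ?_⟩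
    rw [e1, ha, hb, Finset.mul_sum, ← Finset.sum_add_distrib]
  choose a₁ b₁ hab using hder
  obtain ⟨q, hq, z, hz⟩ := exists_den (fun p : (Fin N × Fin N) × Bool => if p.2 then a₁ p.1.1 p.1.2 else b₁ p.1.1 p.1.2)
  have hza : ∀ i j, (z ((i, j), true) : ℚ) = q * a₁ i j := fun i j => by
    have := hz ((i, j), true); simpa using this
  have hzb : ∀ i j, (z ((i, j), false) : ℚ) = q * b₁ i j := fun i j => by
    have := hz ((i, j), false); simpa using this
  have hsys : ESys q C y := by
    refine ⟨hC, hq, hsize, hden, fun i j => Polynomial.C (z ((i, j), true)) + Polynomial.C (z ((i, j), false)) * Polynomial.X,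
      fun i => ?_⟩
    have h1 : (TQ q : ℚ⟦X⟧) * d⁄dX ℚ (y i) = (q : ℚ⟦X⟧) * th (y i) := by
      rw [TQ_eq, th, mul_assoc]
    rw [h1, hab, Finset.mul_sum]
    refine Finset.sum_congr rfl fun j _ => ?_
    have h2 : ps (Polynomial.C (z ((i, j), true)) + Polynomial.C (z ((i, j), false)) * Polynomial.X) =
        PowerSeries.C ((z ((i, j), true) : ℤ) : ℚ) + PowerSeries.C ((z ((i, j), false) : ℤ) : ℚ) * X := by
      rw [ps, Polynomial.map_add, Polynomial.map_mul, Polynomial.map_C, Polynomial.map_C, Polynomial.map_X,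
        Polynomial.coe_add, Polynomial.coe_mul, Polynomial.coe_C, Polynomial.coe_C, Polynomial.coe_X]
      rfl
    rw [h2, hza, hzb, smul_eq_C_mul, smul_eq_C_mul, map_mul, map_mul]
    have h3 : (PowerSeries.C (q : ℚ) : ℚ⟦X⟧) = (q : ℚ⟦X⟧) := by simp
    rw [h3]
    ring
  -- linear independence over the polynomials
  have hLI : LinearIndependent (Polynomial ℚ) y := by
    rw [Fintype.linearIndependent_iff]
    intro p hp i
    obtain ⟨m, hm⟩ : ∃ m : ℕ, ∀ i, (p i).natDegree < m := by
      refine ⟨(Finset.univ.sup fun i => (p i).natDegree) + 1, fun i => Nat.lt_succ_of_le ?_⟩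
      exact Finset.le_sup (f := fun i => (p i).natDegree) (Finset.mem_univ i)
    have hexp : ∀ i, p i • y i = ∑ n ∈ Finset.range m, X ^ n * ((p i).coeff n • y i) := by
      intro i
      conv_lhs => rw [Polynomial.as_sum_range' (p i) m (hm i)]
      rw [Finset.sum_smul]
      refine Finset.sum_congr rfl fun n _ => ?_
      rw [Algebra.smul_def, PowerSeries.algebraMap_apply', smul_eq_C_mul, ← Polynomial.C_mul_X_pow_eq_monomial]
      simp
      ring
    have h1 : ∑ n ∈ Finset.range m, X ^ n * bc K (∑ i, (p i).coeff n • y i) = 0 := by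
      have h2 : ∑ n ∈ Finset.range m, (X : ℚ⟦X⟧) ^ n * (∑ i, (p i).coeff n • y i) = 0 := by
        rw [← hp, Finset.sum_congr rfl fun i _ => hexp i, Finset.sum_comm]
        exact Finset.sum_congr rfl fun n _ => by rw [Finset.mul_sum]
      have h3 := congrArg (bc K) h2
      rw [map_sum, map_zero] at h3
      rw [← h3]
      exact Finset.sum_congr rfl fun n _ => by rw [map_mul, map_pow, PowerSeries.map_X]
    have h2 := direct m (fun n => bc K (∑ i, (p i).coeff n • y i)) (fun n => VI_le hI (mem_W0.1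
      (Submodule.sum_mem _ fun i _ => Submodule.smul_mem _ _ (hymem i)))) h1
    ext n
    rw [Polynomial.coeff_zero]
    by_cases hn : n < m
    · have h3 : ∑ i, (p i).coeff n • y i = 0 := bc_injective (by rw [h2 n hn, map_zero])
      exact Fintype.linearIndependent_iff.1 hLI0 _ h3 i
    · exact Polynomial.coeff_eq_zero_of_natDegree_lt (by have := hm i; omega)
  obtain ⟨c, hc, hval⟩ := Pool.Agent.N743.SS.E_meas hsys i₀ hi₀ hLI 1 one_pos
  refine ⟨N, y, hymem, hrep, hLI0, N, c, hc, fun a ha A hA haA => ?_⟩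
  have h1 := hval a ha A haA
  have e1 : (-((N : ℝ) - 1 + 1)) = -(N : ℝ) := by ring
  rw [e1, Real.rpow_neg (by linarith), Real.rpow_natCast] at h1
  have hA0 : 0 < A ^ N := by positivity
  calc c = A ^ N * (c * (A ^ N)⁻¹) := by field_simp
    _ ≤ _ := mul_le_mul_of_nonneg_left h1 hA0.le

end

end Pool.Agent.H488.E
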