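import Pool.Agent.H488.E.Fam
import Pool.Agent.H488.E.Qb
import Pool.Graph.R_pool_sql_team_seeded_9f66d723.W5h35.GA.Mem
import Pool.Graph.R_pool_sql_team_seeded_63374d34.N902.EW.Fi2

/-!
# Gompertz numbers and Poisson means of tails in terms of the independent numbers
-/

set_option autoImplicit false
set_option linter.unusedSectionVars false

namespace Pool.Agent.H488.E

open Pool.Agent.H488.M (vl Bd Meas)
open Pool.Agent.N902.EW (Qb io evA evk mk zs adm_zs sk E0 PS PT U)
open Pool.Agent.W5h35.GA (Ec Nc dC PBc PCc)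

/-- the exponential series as a value -/
lemma evA_zs_Ec {α : ℂ} {a : Qb} (ha : a ≠ 0) (hα : io a = -α) (m : ℕ) :
    evA io (mk 0 (zs a m) (adm_zs ha m)) = -Ec (m + 1) α := by
  rw [N902.EW.evA_mk, N902.EW.evk_ex_zero, one_mul, evk]
  have hs : Summable fun n => io (PowerSeries.coeff n (U (zs a m))) :=
    (N902.EW.EFK.U (φ := io) (zs a m)).summable_norm.of_norm
  rw [hs.tsum_eq_zero_add, N902.EW.coeff_U_zs ha, if_pos rfl, map_zero, zero_add, W5h35.GA.Ec_eq,
    ← tsum_neg]
  refine tsum_congr fun n => ?_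
  rw [N902.EW.coeff_U_zs ha, if_neg (Nat.succ_ne_zero n), map_div₀, map_pow, map_mul, map_natCast,
    map_pow, map_natCast, hα]
  push_cast
  ring

/-- the complex Gompertz numbers -/
lemma dC_eq (l : ℕ) {α : ℂ} (hα : α ∈ Complex.slitPlane) :
    dC l α = Complex.exp α * (Nc l (Complex.log α) - (-1) ^ l * l.factorial * Ec l α) := by
  have h1 := W5h35.GA.Ec_rel l hα
  have hl : (l.factorial : ℂ) ≠ 0 := by exact_mod_cast l.factorial_ne_zero
  have h3 : ((-1 : ℂ) ^ l) * (-1) ^ l = 1 := by rw [← mul_pow]; norm_num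
  have h4 : (-1) ^ l * l.factorial * Ec l α = Nc l (Complex.log α) - Complex.exp (-α) * dC l α := by
    rw [h1]
    field_simp
    linear_combination (Nc l (Complex.log α) - Complex.exp (-α) * dC l α) * h3
  rw [h4, sub_sub_cancel, ← mul_assoc, ← Complex.exp_add, add_neg_cancel, Complex.exp_zero, one_mul]

/-- the coefficients are polynomials in `γ + L` and the zeta values -/
lemma coeff_PBc_adj {L : ℂ} {S : Subalgebra ℚ ℂ} (h0 : (Real.eulerMascheroniConstant : ℂ) + L ∈ S) (J : ℕ)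
    (hz : ∀ k, 2 ≤ k → k ≤ J → riemannZeta k ∈ S) : ∀ n ≤ J, PowerSeries.coeff n (PBc L) ∈ S := by
  have hdiv : ∀ (z : ℂ) (n : ℕ), z ∈ S → z / n ∈ S := by
    intro z n hz
    have h := S.smul_mem hz ((n : ℚ)⁻¹)
    rw [Algebra.smul_def] at h
    have h2 : z / n = (algebraMap ℚ ℂ) (n : ℚ)⁻¹ * z := by
      rw [map_inv₀, map_natCast, div_eq_mul_inv, mul_comm]
    rw [h2]; exact h
  have hc : ∀ j < J, PowerSeries.coeff j (PCc - PowerSeries.C L) ∈ S := by
    intro j hj
    rw [map_sub, PowerSeries.coeff_C, PCc, PowerSeries.coeff_mk]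
    cases j with
    | zero =>
      have h : ((R352.E.cc 0 / (Nat.factorial 0 : ℝ) : ℝ) : ℂ) - (if (0 : ℕ) = 0 then L else 0) =
          -((Real.eulerMascheroniConstant : ℂ) + L) := by
        simp only [R352.E.cc, Nat.factorial_zero, Nat.cast_one, div_one, if_true]
        push_cast
        ring
      rw [h]
      exact S.neg_mem h0
    | succ j =>
      simp only [R352.E.cc, Nat.succ_ne_zero, if_false, sub_zero]
      push_cast
      refine hdiv _ _ ?_
      rw [N902.EW.zt_eq (by omega)]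
      refine S.mul_mem (S.mul_mem ?_ ?_) ?_
      · exact S.pow_mem (S.neg_mem S.one_mem) _
      · exact natCast_mem S _
      · exact hz _ (by omega) (by omega)
  intro n
  induction n using Nat.strong_induction_on with
  | _ n ih =>
    intro hn
    cases n with
    | zero =>
      rw [W5h35.GA.coeff_PBc, Nc]
      simp [R352.E.mo0]
    | succ n =>
      have h1 : PowerSeries.coeff n (PowerSeries.derivative ℂ (PBc L)) =
          PowerSeries.coeff n (PBc L * (PCc - PowerSeries.C L)) := by rw [W5h35.GA.dPBc]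
      rw [PowerSeries.coeff_derivative, PowerSeries.coeff_mul] at h1
      have h2 : PowerSeries.coeff (n + 1) (PBc L) = (∑ p ∈ Finset.HasAntidiagonal.antidiagonal n,
          PowerSeries.coeff p.1 (PBc L) *
          PowerSeries.coeff p.2 (PCc - PowerSeries.C L)) / ((n + 1 : ℕ) : ℂ) := by
        rw [eq_div_iff (by exact_mod_cast n.succ_ne_zero), ← h1]
        push_cast
        ring
      rw [h2]
      refine hdiv _ _ (S.sum_mem fun p hp => ?_)
      have hp' := Finset.HasAntidiagonal.mem_antidiagonal.1 hp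
      exact S.mul_mem (ih p.1 (by omega) (by omega)) (hc p.2 (by omega))

lemma Nc_adj {L : ℂ} {S : Subalgebra ℚ ℂ} (h0 : (Real.eulerMascheroniConstant : ℂ) + L ∈ S) (l : ℕ)
    (hz : ∀ k, 2 ≤ k → k ≤ l → riemannZeta k ∈ S) : Nc l L ∈ S := by
  have h := coeff_PBc_adj h0 l hz l le_rfl
  rw [W5h35.GA.coeff_PBc] at h
  have h2 := S.mul_mem (natCast_mem S l.factorial) h
  rwa [mul_div_cancel₀ _ (by exact_mod_cast l.factorial_ne_zero)] at h2

/-- polynomials with integral coefficients -/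
lemma exists_int {τ : Type} (y : τ → ℂ) {z : ℂ} (hz : z ∈ Algebra.adjoin ℚ (Set.range y)) :
    ∃ (D : ℤ) (A : MvPolynomial τ ℤ), D ≠ 0 ∧ MvPolynomial.aeval y A = D * z := by
  induction hz using Algebra.adjoin_induction with
  | mem z hz =>
    obtain ⟨j, rfl⟩ := hz
    exact ⟨1, MvPolynomial.X j, one_ne_zero, by rw [MvPolynomial.aeval_X]; simp⟩
  | algebraMap r =>
    refine ⟨r.den, MvPolynomial.C r.num, by exact_mod_cast r.den_nz, ?_⟩
    rw [MvPolynomial.aeval_C]
    have h1 : (algebraMap ℚ ℂ) r = (r.num : ℂ) / r.den := by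
      rw [eq_ratCast]
      exact_mod_cast (Rat.num_div_den r).symm
    have h2 : (r.den : ℂ) ≠ 0 := by exact_mod_cast r.den_nz
    rw [h1]
    push_cast
    rw [mul_div_cancel₀ _ h2]
    simp
  | add x y _ _ hx hy =>
    obtain ⟨D, A, hD, h⟩ := hx
    obtain ⟨D', A', hD', h'⟩ := hy
    refine ⟨D * D', MvPolynomial.C D' * A + MvPolynomial.C D * A', mul_ne_zero hD hD', ?_⟩
    rw [map_add, map_mul, map_mul, h, h', MvPolynomial.aeval_C, MvPolynomial.aeval_C]
    simp
    ring
  | mul x y _ _ hx hy =>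
    obtain ⟨D, A, hD, h⟩ := hx
    obtain ⟨D', A', hD', h'⟩ := hy
    refine ⟨D * D', A * A', mul_ne_zero hD hD', ?_⟩
    rw [map_mul, h, h']
    push_cast
    ring

section names

variable {κ₁ κ₂ ε : Type} [Fintype κ₁] [Fintype κ₂] [Fintype ε]

/-- the independent numbers -/
noncomputable def th (l : κ₁ → ℕ) (α : κ₁ → ℂ) (k : κ₂ → ℕ) (x : κ₂ → ℂ) : κ₁ ⊕ κ₂ → ℂ :=
  Sum.elim (fun i => -Ec (l i) (α i)) fun i => PS (k i) (x i)

theorem meas_th (l : κ₁ → ℕ) (α : κ₁ → ℂ) (k : κ₂ → ℕ) (x : κ₂ → ℂ) (β : ε → ℂ)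
    (hl : ∀ i, 1 ≤ l i) (hα : ∀ i, IsAlgebraic ℚ (α i) ∧ α i ≠ 0)
    (hlα : Function.Injective fun i => (l i, α i)) (hk : ∀ i, 2 ≤ k i)
    (hx : ∀ i, IsAlgebraic ℚ (x i)) (hx2 : ∀ i j, x i + x j ≠ 0)
    (hkx : Function.Injective fun i => (k i, x i))
    (hβ : ∀ i, IsAlgebraic ℚ (β i)) (hβl : LinearIndependent ℚ β) :
    Meas (Sum.elim (th l α k x) fun i => Complex.exp (β i)) := by
  classical
  let X' : Set Qb := {z | io z ∈ Set.range x}
  have hX' : ∀ z ∈ X', ∀ w ∈ X', z + w ≠ 0 := by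
    rintro z ⟨i, hi⟩ w ⟨j, hj⟩ h
    refine hx2 i j ?_
    rw [hi, hj, ← map_add, h, map_zero]
  have hX0 : ∀ z : X', z.1 ≠ 0 := fun z h => hX' _ z.2 _ z.2 (by rw [h, add_zero])
  have h1 := N902.EW.ai_joint X' hX' hX0
  choose f hf using fun i => N902.EW.mem_range_io (hx i)
  choose a ha using fun i => N902.EW.mem_range_io (hα i).1.neg
  have ha0 : ∀ i, a i ≠ 0 := by
    intro i h
    have h2 := ha i
    rw [h, map_zero] at h2
    exact (hα i).2 (neg_eq_zero.1 h2.symm)
  let g : κ₂ ⊕ κ₁ → (X' × ℕ) ⊕ ({a : Qb // a ≠ 0} × ℕ) := Sum.map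
    (fun i => (⟨f i, by show io (f i) ∈ Set.range x; rw [hf]; exact ⟨i, rfl⟩⟩, k i - 2))
    (fun i => (⟨a i, ha0 i⟩, l i - 1))
  have hg : Function.Injective g := by
    refine Function.Injective.sumMap ?_ ?_
    · intro i j h
      have e1 : f i = f j := congrArg (fun z => z.1.1) h
      have e2 : k i - 2 = k j - 2 := congrArg (fun z => z.2) h
      apply hkx
      refine Prod.ext ?_ ?_
      · have := hk i
        have := hk j
        show k i = k j
        omega
      · show x i = x j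
        rw [← hf i, ← hf j, e1]
    · intro i j h
      have e1 : a i = a j := congrArg (fun z => z.1.1) h
      have e2 : l i - 1 = l j - 1 := congrArg (fun z => z.2) h
      apply hlα
      refine Prod.ext ?_ ?_
      · have := hl i
        have := hl j
        show l i = l j
        omega
      · show α i = α j
        have h3 : -α i = -α j := by rw [← ha i, ← ha j, e1]
        exact neg_injective h3
  have h2 := h1.comp g hg
  have h3 : (Sum.elim (fun p : X' × ℕ => evA io (sk p.1.1 (hX0 p.1) p.2))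
      (fun p : {a : Qb // a ≠ 0} × ℕ => evA io (mk 0 (zs p.1.1 p.2) (adm_zs p.1.2 p.2)))) ∘ g =
      Sum.elim (fun i => PS (k i) (x i)) fun i => -Ec (l i) (α i) := by
    funext i
    rcases i with i | i
    · show evA io (sk (f i) _ (k i - 2)) = PS (k i) (x i)
      rw [N902.EW.evA_sk, hf]
      congr 1
      have := hk i
      omega
    · show evA io (mk 0 (zs (a i) (l i - 1)) _) = -Ec (l i) (α i)
      rw [evA_zs_Ec (ha0 i) (ha i)]
      congr 2
      have := hl i
      omega
  rw [h3] at h2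
  -- exponentials
  have hexp : AlgebraicIndependent ℚ fun i => Complex.exp (β i) := by
    have e := Fintype.equivFin ε
    have h5 := S.algInd (M.meas_exp (fun j => β (e.symm j)) (fun j => hβ _)
      (hβl.comp _ e.symm.injective))
    have h6 := h5.comp e e.injective
    have h7 : ((fun j => Complex.exp (β (e.symm j))) ∘ e) = fun i => Complex.exp (β i) := by
      funext i
      simp
    rwa [h7] at h6
  have h4 := hexp.sumElim_of_tower (S := E0) (by
    rintro _ ⟨i, rfl⟩
    exact ⟨⟨_, N902.EW.exp_mem_E0 (hβ i)⟩, rfl⟩) h2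
  have h5 := h4.comp (Sum.map Sum.swap id : (κ₁ ⊕ κ₂) ⊕ ε → (κ₂ ⊕ κ₁) ⊕ ε)
    (Function.Injective.sumMap Sum.swap_leftInverse.injective Function.injective_id)
  have h6 : (Sum.elim (Sum.elim (fun i => PS (k i) (x i)) fun i => -Ec (l i) (α i))
      fun i => Complex.exp (β i)) ∘ (Sum.map Sum.swap id : (κ₁ ⊕ κ₂) ⊕ ε → (κ₂ ⊕ κ₁) ⊕ ε) =
      Sum.elim (th l α k x) fun i => Complex.exp (β i) := by
    funext i
    rcases i with (i | i) | i <;> rfl
  rw [h6] at h5
  refine meas_range _ (fun i => ?_) h5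
  rcases i with (i | i) | i
  · have := congrFun h3 (Sum.inr i)
    rw [Sum.elim_inr] at this
    show -Ec (l i) (α i) ∈ _
    rw [← this]
    exact ⟨_, rfl⟩
  · have := congrFun h3 (Sum.inl i)
    rw [Sum.elim_inl] at this
    show PS (k i) (x i) ∈ _
    rw [← this]
    exact ⟨_, rfl⟩
  · obtain ⟨b, hb⟩ := N902.EW.mem_range_io (hβ i)
    refine ⟨mk b [] N902.EW.adm_nil, ?_⟩
    rw [N902.EW.evA_mk, N902.EW.evk_ex, hb, N902.EW.U_nil, N902.EW.evk_one, mul_one]
    rfl

end names

end Pool.Agent.H488.E
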